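import Mathlib

set_option autoImplicit false

/-!
Even matrix grammars and their modes 0 and 1; matrix grammars.
-/

namespace Pool.Agent.R574.EM

open Relation

/-- the concatenation `x_1 x_2 ... x_n` of the components of an `n`-tuple of words -/
def cat {n : ℕ} {α : Type} (x : Fin n → List α) : List α := (List.ofFn x).flatten

/-- An even matrix grammar of degree `n` over the terminal alphabet `T`. The pairwise disjoint
nonterminal alphabets `N_1, ..., N_n` are the fibres of `comp : N → Fin n`; the start symbol is not
a member of `N`. `Pt` is the set of the words `v` of the rules `(S) → (v)` with `v` terminal, `Ps`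
the set of the tuples `(v_1, ..., v_n)` of the rules `(S) → (v_1 ... v_n)`, and `P` the set of the
rules `(A_1, ..., A_n) → (v_1, ..., v_n)`. -/
structure Grammar (n : ℕ) (T : Type) where
  N : Type
  finite_N : Finite N
  comp : N → Fin n
  Pt : Set (List T)
  Ps : Set (Fin n → List (Symbol T N))
  P : Set ((Fin n → N) × (Fin n → List (Symbol T N)))
  finite_Pt : Pt.Finite
  finite_Ps : Ps.Finite
  finite_P : P.Finite
  start_comp : ∀ v ∈ Ps, ∀ i, (∀ A, Symbol.nonterminal A ∈ v i → comp A = i) ∧
    ∃ A, Symbol.nonterminal A ∈ v i
  rule_comp : ∀ r ∈ P, ∀ i, comp (r.1 i) = i ∧ ∀ A, Symbol.nonterminal A ∈ r.2 i → comp A = i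

variable {n : ℕ} {T : Type}

/-- One step: for a rule `(A_1, ..., A_n) → (v_1, ..., v_n)`,
`u_1 A_1 w_1 ... u_n A_n w_n ⇒ u_1 v_1 w_1 ... u_n v_n w_n` with `u_i w_i ∈ (N_i ∪ T)^*`; in mode 1
(`leftmost = true`) moreover `A_i` does not occur in `u_i`. -/
def Grammar.Step (G : Grammar n T) (leftmost : Bool) (x y : List (Symbol T G.N)) : Prop :=
  ∃ r ∈ G.P, ∃ u w : Fin n → List (Symbol T G.N),
    (∀ i A, Symbol.nonterminal A ∈ u i ++ w i → G.comp A = i) ∧
    (leftmost = true → ∀ i, Symbol.nonterminal (r.1 i) ∉ u i) ∧
    x = cat (fun i => u i ++ [Symbol.nonterminal (r.1 i)] ++ w i) ∧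
    y = cat (fun i => u i ++ r.2 i ++ w i)

/-- The language generated in mode 0 (`leftmost = false`) or in mode 1 (`leftmost = true`). -/
def Grammar.language (G : Grammar n T) (leftmost : Bool) : Set (List T) :=
  {w | w ∈ G.Pt ∨ ∃ v ∈ G.Ps, ReflTransGen (G.Step leftmost) (cat v) (w.map Symbol.terminal)}

/-- A matrix grammar (erasing rules allowed, no appearance checking): a finite set of matrices,
each of which is a nonempty finite sequence of context-free rules. -/
structure MatrixGrammar (T : Type) where
  N : Type
  finite_N : Finite N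
  start : N
  matrices : Set (List (N × List (Symbol T N)))
  finite_matrices : matrices.Finite
  nonempty_matrices : ∀ m ∈ matrices, m ≠ []

/-- One context-free rewriting step with the rule `r`. -/
def Rewrites {T N : Type} (r : N × List (Symbol T N)) (x y : List (Symbol T N)) : Prop :=
  ∃ u w, x = u ++ [Symbol.nonterminal r.1] ++ w ∧ y = u ++ r.2 ++ w

/-- The rules of a sequence are applied one after the other. -/
def RewritesAll {T N : Type} :
    List (N × List (Symbol T N)) → List (Symbol T N) → List (Symbol T N) → Prop
  | [], x, y => x = y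
  | r :: m, x, y => ∃ z, Rewrites r x z ∧ RewritesAll m z y

/-- One step of a matrix grammar: all rules of one matrix are applied in order. -/
def MatrixGrammar.Step (H : MatrixGrammar T) (x y : List (Symbol T H.N)) : Prop :=
  ∃ m ∈ H.matrices, RewritesAll m x y

/-- The generated language. -/
def MatrixGrammar.language (H : MatrixGrammar T) : Set (List T) :=
  {w | ReflTransGen H.Step [Symbol.nonterminal H.start] (w.map Symbol.terminal)}

end Pool.Agent.R574.EM
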