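import Pool.Agent.R574.EM.PN
import Pool.Agent.R574.EM.Defs

set_option autoImplicit false

/-!
Even matrix grammars with monoid values and their Petri nets.
-/

namespace Pool.Agent.R574.EM

open Relation

variable {n : ℕ} {T M : Type}

theorem split_cat {α β : Type} (f : α → β) : ∀ {n : ℕ} (X : Fin n → List β) (a : List α),
    a.map f = cat X → ∃ Y : Fin n → List α, a = cat Y ∧ ∀ i, (Y i).map f = X i := by
  intro n
  induction n with
  | zero =>
    intro X a h
    simp only [cat, List.ofFn_zero, List.flatten_nil, List.map_eq_nil_iff] at h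
    exact ⟨fun _ => [], by simp [cat, h], fun i => i.elim0⟩
  | succ n ih =>
    intro X a h
    simp only [cat, List.ofFn_succ, List.flatten_cons] at h
    obtain ⟨a1, a2, rfl, h1, h2⟩ := List.map_eq_append_iff.mp h
    obtain ⟨Y, h3, h4⟩ := ih (fun i => X i.succ) a2 h2
    refine ⟨Fin.cons a1 Y, ?_, ?_⟩
    · simp only [cat, List.ofFn_succ, List.flatten_cons, Fin.cons_zero, Fin.cons_succ]
      rw [h3]
      rfl
    · intro i
      refine Fin.cases ?_ (fun i => ?_) i
      · simpa using h1
      · simpa using h4 i

theorem map_cat {α β : Type} (f : α → β) (X : Fin n → List α) :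
    (cat X).map f = cat (fun i => (X i).map f) := by
  simp only [cat, List.map_flatten, List.map_ofFn]
  rfl

theorem mem_cat {α : Type} (X : Fin n → List α) (a : α) : a ∈ cat X ↔ ∃ i, a ∈ X i := by
  simp only [cat, List.mem_flatten, List.mem_ofFn]
  constructor
  · rintro ⟨l, ⟨i, rfl⟩, h⟩
    exact ⟨i, h⟩
  · rintro ⟨i, h⟩
    exact ⟨_, ⟨i, rfl⟩, h⟩

open Classical in
/-- the marking of a word -/
noncomputable def cnt {α : Type} (a : List α) : α → ℕ := fun x => a.count x

theorem cnt_eq {α : Type} [inst : DecidableEq α] (a : List α) (x : α) : cnt a x = a.count x := by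
  have h : inst = fun a b => Classical.propDecidable (a = b) := Subsingleton.elim _ _
  subst h
  rfl

theorem cnt_pos {α : Type} (a : List α) (x : α) : 0 < cnt a x ↔ x ∈ a := by
  classical
  rw [cnt_eq, List.count_pos_iff]

theorem cnt_zero {α : Type} (a : List α) (x : α) : cnt a x = 0 ↔ x ∉ a := by
  classical
  rw [cnt_eq, List.count_eq_zero]

theorem cnt_map {α β : Type} (f : α → β) (hf : Function.Injective f) (a : List α) (x : α) :
    cnt (a.map f) (f x) = cnt a x := by
  classical
  rw [cnt_eq, cnt_eq, List.count_map_of_injective _ _ hf]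

theorem cnt_append {α : Type} (a b : List α) : cnt (a ++ b) = cnt a + cnt b := by
  funext x
  simp [cnt, List.count_append]

theorem cnt_cat {α : Type} (X : Fin n → List α) : cnt (cat X) = ∑ i, cnt (X i) := by
  induction n with
  | zero =>
    funext x
    simp [cnt, cat]
  | succ n ih =>
    rw [Fin.sum_univ_succ, ← ih (fun i => X i.succ), ← cnt_append]
    simp only [cat, List.ofFn_succ, List.flatten_cons]

section

variable [Monoid M] (G : Grammar n T) (h : T → M)

/-- annotated symbols -/
abbrev AS (T M : Type) (N : Type) := Symbol T (N × M)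

/-- forgetting the annotation -/
def proj {N : Type} : AS T M N → Symbol T N
  | Symbol.terminal t => Symbol.terminal t
  | Symbol.nonterminal (A, _) => Symbol.nonterminal A

/-- the value of an annotated symbol -/
def val {N : Type} : AS T M N → M
  | Symbol.terminal t => h t
  | Symbol.nonterminal (_, m) => m

/-- the value of an annotated word -/
def eval {N : Type} (a : List (AS T M N)) : M := (a.map (val h)).prod

theorem eval_append {N : Type} (a b : List (AS T M N)) :
    eval h (a ++ b) = eval h a * eval h b := by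
  simp [eval]

theorem eval_cat {N : Type} (X : Fin n → List (AS T M N)) :
    eval h (cat X) = (List.ofFn fun i => eval h (X i)).prod := by
  induction n with
  | zero => simp [cat, eval]
  | succ n ih =>
    simp only [List.ofFn_succ, List.prod_cons]
    have : cat X = X 0 ++ cat (fun i => X i.succ) := by
      simp only [cat, List.ofFn_succ, List.flatten_cons]
    rw [this, eval_append, ih]

/-- index type of the transitions: a rule together with an annotation of its right-hand side -/
def Idx : Type := {p : ((Fin n → G.N) × (Fin n → List (Symbol T G.N))) ×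
    (Fin n → List (AS T M G.N)) // p.1 ∈ G.P ∧ ∀ i, (p.2 i).map proj = p.1.2 i}

/-- the transitions -/
noncomputable def Tr (t : Idx (M := M) G) : (AS T M G.N → ℕ) × (AS T M G.N → ℕ) :=
  (cnt (cat fun i => [Symbol.nonterminal (t.1.1.1 i, eval h (t.1.2 i))]), cnt (cat t.1.2))

theorem finite_symbol {N : Type} [Finite T] [Finite N] : Finite (Symbol T N) := by
  refine Finite.of_surjective (α := T ⊕ N)
    (fun x => x.elim Symbol.terminal Symbol.nonterminal) ?_
  rintro (t | A)
  · exact ⟨Sum.inl t, rfl⟩
  · exact ⟨Sum.inr A, rfl⟩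

instance finite_as [Finite T] [Finite M] : Finite (AS T M G.N) := by
  have := G.finite_N
  exact finite_symbol

omit [Monoid M] in
theorem finite_lifts [Finite T] [Finite M] (v : List (Symbol T G.N)) :
    {a : List (AS T M G.N) | a.map proj = v}.Finite := by
  refine (List.finite_length_eq (AS T M G.N) v.length).subset ?_
  intro a ha
  change a.map proj = v at ha
  show a.length = v.length
  rw [← ha, List.length_map]

instance finite_idx [Finite T] [Finite M] : Finite (Idx (M := M) G) := by
  have h1 : (⋃ r ∈ G.P, (fun V => (r, V)) '' {V : Fin n → List (AS T M G.N) |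
      ∀ i, V i ∈ {a | a.map proj = r.2 i}}).Finite := by
    refine G.finite_P.biUnion fun r _ => ?_
    exact (Set.Finite.pi' fun i => finite_lifts G (r.2 i)).image _
  refine h1.subset ?_ |>.to_subtype
  rintro ⟨r, V⟩ ⟨hr, hV⟩
  exact Set.mem_biUnion hr ⟨V, hV, rfl⟩

/-- derivation steps lift to firings, backwards -/
theorem lift_step {lm : Bool} {x y : List (Symbol T G.N)} (hs : G.Step lm x y)
    (ay : List (AS T M G.N)) (hy : ay.map proj = y) :
    ∃ ax : List (AS T M G.N), ax.map proj = x ∧ eval h ax = eval h ay ∧
      PN.Fire (Tr G h) (cnt ax) (cnt ay) := by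
  obtain ⟨r, hr, u, w, _, _, rfl, rfl⟩ := hs
  obtain ⟨Y, rfl, hY⟩ := split_cat proj _ ay hy
  have h1 : ∀ i, ∃ U V W, Y i = U ++ V ++ W ∧ U.map proj = u i ∧ V.map proj = r.2 i ∧
      W.map proj = w i := by
    intro i
    obtain ⟨UV, W, e1, e2, e3⟩ := List.map_eq_append_iff.mp (hY i)
    obtain ⟨U, V, e4, e5, e6⟩ := List.map_eq_append_iff.mp e2
    exact ⟨U, V, W, by rw [e1, e4], e5, e6, e3⟩
  choose U V W hY2 hU hV hW using h1
  refine ⟨cat fun i => U i ++ [Symbol.nonterminal (r.1 i, eval h (V i))] ++ W i, ?_, ?_, ?_⟩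
  · rw [map_cat]
    congr 1
    funext i
    simp only [List.map_append, hU, hW, List.map_cons, List.map_nil]
    rfl
  · rw [eval_cat, eval_cat]
    congr 2
    funext i
    rw [hY2 i]
    simp only [eval_append]
    congr 2
    simp [eval, val]
  · refine ⟨⟨(r, V), hr, hV⟩, cnt (cat U) + cnt (cat W), ?_, ?_⟩
    · simp only [Tr, cnt_cat, cnt_append, Finset.sum_add_distrib]
      abel
    · simp only [Tr, cnt_cat, hY2, cnt_append, Finset.sum_add_distrib]
      abel

theorem lift_derives {lm : Bool} {x y : List (Symbol T G.N)}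
    (hs : ReflTransGen (G.Step lm) x y) (ay : List (AS T M G.N)) (hy : ay.map proj = y) :
    ∃ ax : List (AS T M G.N), ax.map proj = x ∧ eval h ax = eval h ay ∧
      ReflTransGen (PN.Fire (Tr G h)) (cnt ax) (cnt ay) := by
  induction hs using ReflTransGen.head_induction_on with
  | refl => exact ⟨ay, hy, rfl, ReflTransGen.refl⟩
  | head h1 _ ih =>
    obtain ⟨ax, h2, h3, h4⟩ := ih
    obtain ⟨ax', h5, h6, h7⟩ := lift_step G h h1 ax h2
    exact ⟨ax', h5, h6.trans h3, ReflTransGen.head h7 h4⟩

/-- firings are realised by derivation steps -/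
theorem realise_step {lm : Bool} (hlm : lm = true → Subsingleton M)
    (X : Fin n → List (AS T M G.N))
    (hX : ∀ i A, Symbol.nonterminal A ∈ X i → G.comp A.1 = i) {ν : AS T M G.N → ℕ}
    (hf : PN.Fire (Tr G h) (cnt (cat X)) ν) :
    ∃ X' : Fin n → List (AS T M G.N),
      (∀ i A, Symbol.nonterminal A ∈ X' i → G.comp A.1 = i) ∧ cnt (cat X') = ν ∧
      eval h (cat X') = eval h (cat X) ∧
      G.Step lm ((cat X).map proj) ((cat X').map proj) := by
  obtain ⟨⟨⟨r, V⟩, hr, hV⟩, κ, h1, rfl⟩ := hf
  simp only [Tr] at h1 hr hV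
  have h2 : ∀ i, Symbol.nonterminal (r.1 i, eval h (V i)) ∈ X i := by
    intro i
    have h3 : Symbol.nonterminal (r.1 i, eval h (V i)) ∈ cat X := by
      rw [← cnt_pos]
      have h4 := congrFun h1 (Symbol.nonterminal (r.1 i, eval h (V i)))
      have h5 : Symbol.nonterminal (r.1 i, eval h (V i)) ∈
          cat (fun i => [Symbol.nonterminal (r.1 i, eval h (V i))] :
            Fin n → List (AS T M G.N)) := (mem_cat _ _).mpr ⟨i, by simp⟩
      have h6 := (cnt_pos _ _).mpr h5
      rw [h4, Pi.add_apply]
      omega
    obtain ⟨j, hj⟩ := (mem_cat _ _).mp h3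
    have h7 := hX j _ hj
    have h8 := (G.rule_comp r hr i).1
    have : j = i := h7.symm.trans h8
    exact this ▸ hj
  have h3 : ∀ i, ∃ U W, X i = U ++ [Symbol.nonterminal (r.1 i, eval h (V i))] ++ W ∧
      Symbol.nonterminal (r.1 i, eval h (V i)) ∉ U := by
    intro i
    obtain ⟨U, W, e, h4⟩ := List.eq_append_cons_of_mem (h2 i)
    exact ⟨U, W, by rw [e]; simp, h4⟩
  choose U W hUW hU using h3
  have hXeq : X = fun i => U i ++ [Symbol.nonterminal (r.1 i, eval h (V i))] ++ W i :=
    funext hUW
  refine ⟨fun i => U i ++ V i ++ W i, ?_, ?_, ?_, ?_⟩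
  · intro i A hA
    rcases List.mem_append.mp hA with hA | hA
    · rcases List.mem_append.mp hA with hA | hA
      · exact hX i A (by rw [hUW i]; simp [hA])
      · refine (G.rule_comp r hr i).2 A.1 ?_
        have := List.mem_map_of_mem (f := proj) hA
        rw [hV i] at this
        exact this
    · exact hX i A (by rw [hUW i]; simp [hA])
  · have h4 : cnt (cat X) = cnt (cat (fun i => [Symbol.nonterminal (r.1 i, eval h (V i))] :
            Fin n → List (AS T M G.N))) + (cnt (cat U) + cnt (cat W)) := by
      rw [hXeq]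
      simp only [cnt_cat, cnt_append, Finset.sum_add_distrib]
      abel
    have h5 : κ = cnt (cat U) + cnt (cat W) := by
      rw [h4] at h1
      exact (add_left_cancel h1).symm
    simp only [Tr]
    rw [h5]
    simp only [cnt_cat, cnt_append, Finset.sum_add_distrib]
    abel
  · rw [eval_cat, eval_cat]
    congr 2
    funext i
    rw [hUW i]
    simp only [eval_append]
    congr 2
    simp [eval, val]
  · refine ⟨r, hr, fun i => (U i).map proj, fun i => (W i).map proj, ?_, ?_, ?_, ?_⟩
    · intro i A hA
      have : Symbol.nonterminal A ∈ (U i ++ W i).map proj := by simpa using hA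
      obtain ⟨s, hs, hsA⟩ := List.mem_map.mp this
      rcases s with t | ⟨B, m⟩
      · cases hsA
      · cases hsA
        exact hX i (A, m) (by
          rw [hUW i]
          simp only [List.mem_append] at hs ⊢
          tauto)
    · intro hl i hA
      have := hlm hl
      obtain ⟨s, hs, hsA⟩ := List.mem_map.mp hA
      rcases s with t | ⟨B, m⟩
      · cases hsA
      · cases hsA
        apply hU i
        rwa [Subsingleton.elim (eval h (V i)) m]
    · rw [map_cat]
      congr 1
      funext i
      rw [hUW i]
      simp only [List.map_append, List.map_cons, List.map_nil]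
      rfl
    · rw [map_cat]
      congr 1
      funext i
      simp only [List.map_append, hV i]

theorem realise {lm : Bool} (hlm : lm = true → Subsingleton M) {μ ν : AS T M G.N → ℕ}
    (hf : ReflTransGen (PN.Fire (Tr G h)) μ ν) :
    ∀ (X : Fin n → List (AS T M G.N)),
    (∀ i A, Symbol.nonterminal A ∈ X i → G.comp A.1 = i) → cnt (cat X) = μ →
    ∃ X' : Fin n → List (AS T M G.N), cnt (cat X') = ν ∧
      eval h (cat X') = eval h (cat X) ∧
      ReflTransGen (G.Step lm) ((cat X).map proj) ((cat X').map proj) := by
  induction hf using ReflTransGen.head_induction_on with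
  | refl => exact fun X _ h2 => ⟨X, h2, rfl, ReflTransGen.refl⟩
  | head h1 _ ih =>
    intro X h2 h3
    subst h3
    obtain ⟨X', h4, h5, h6, h7⟩ := realise_step (lm := lm) G h hlm X h2 h1
    obtain ⟨X'', h8, h9, h10⟩ := ih X' h4 h5
    exact ⟨X'', h8, h9.trans h6, ReflTransGen.head h7 h10⟩

/-- **Pumping for even matrix grammars** (mode 0, or mode 1 with the trivial monoid): in an
infinite family of generated words with accepted values two words can be amalgamated. -/
theorem pump [Finite T] [Finite M] {lm : Bool} (hlm : lm = true → Subsingleton M) (F : Set M)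
    (w : ℕ → List T) (hinj : Function.Injective w) (hw : ∀ k, w k ∈ G.language lm)
    (hF : ∀ k, ((w k).map h).prod ∈ F) :
    ∃ m n, m < n ∧ ∃ ε : T → ℕ, (∀ t, cnt (w n) t = cnt (w m) t + ε t) ∧
      ∀ j : ℕ, ∃ u ∈ G.language lm, (u.map h).prod ∈ F ∧
        ∀ t, cnt u t = cnt (w m) t + j * ε t := by
  -- discard the finitely many terminal start words
  obtain ⟨K, hK⟩ : ∃ K, ∀ k, K ≤ k → w k ∉ G.Pt := by
    have h1 : {k | w k ∈ G.Pt}.Finite := G.finite_Pt.preimage hinj.injOn
    obtain ⟨K, hK⟩ := h1.bddAbove
    refine ⟨K + 1, fun k hk hk2 => ?_⟩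
    have := hK hk2
    omega
  have h2 : ∀ k, ∃ a : List (AS T M G.N), (∃ v ∈ G.Ps, a.map proj = cat v) ∧
      eval h a = ((w (K + k)).map h).prod ∧
      ReflTransGen (PN.Fire (Tr G h)) (cnt a) (cnt ((w (K + k)).map Symbol.terminal)) := by
    intro k
    rcases hw (K + k) with h3 | ⟨v, hv, h3⟩
    · exact absurd h3 (hK _ (by omega))
    · obtain ⟨a, h4, h5, h6⟩ := lift_derives G h h3
        ((w (K + k)).map Symbol.terminal) (by rw [List.map_map]; rfl)
      refine ⟨a, ⟨v, hv, h4⟩, ?_, h6⟩
      rw [h5]
      simp only [eval, List.map_map]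
      rfl
  choose a ha1 ha2 ha3 using h2
  let I : Set (AS T M G.N → ℕ) := cnt '' {b | ∃ v ∈ G.Ps, b.map proj = cat v}
  have hI : I.Finite := by
    refine Set.Finite.image _ ?_
    have : {b : List (AS T M G.N) | ∃ v ∈ G.Ps, b.map proj = cat v} =
        ⋃ v ∈ G.Ps, {b | b.map proj = cat v} := by
      ext b
      simp
    rw [this]
    exact G.finite_Ps.biUnion fun v _ => finite_lifts G (cat v)
  obtain ⟨m, n, hmn, ε, h4, h5⟩ := PN.pump (Tr := Tr G h) I hI (fun k => cnt (a k))
    (fun k => cnt ((w (K + k)).map Symbol.terminal)) (fun k => ⟨a k, ha1 k, rfl⟩) ha3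
  have hterm : ∀ (b : List T) (t : T),
      cnt (b.map Symbol.terminal : List (AS T M G.N)) (Symbol.terminal t) = cnt b t := by
    intro b t
    exact cnt_map _ (fun x y hxy => by cases hxy; rfl) b t
  refine ⟨K + m, K + n, by omega, fun t => ε (Symbol.terminal t), ?_, ?_⟩
  · intro t
    have := congrFun h4 (Symbol.terminal t)
    simp only [Pi.add_apply, hterm] at this
    exact this
  · intro j
    obtain ⟨v, hv, hav⟩ := ha1 m
    obtain ⟨X, hX1, hX2⟩ := split_cat proj v (a m) hav
    have hX3 : ∀ i A, Symbol.nonterminal A ∈ X i → G.comp A.1 = i := by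
      intro i A hA
      refine (G.start_comp v hv i).1 A.1 ?_
      have := List.mem_map_of_mem (f := proj) hA
      rw [hX2 i] at this
      exact this
    obtain ⟨X', h6, h7, h8⟩ := realise (lm := lm) G h hlm (h5 j) X hX3 (by rw [hX1])
    have hnt : ∀ A, Symbol.nonterminal A ∉ cat X' := by
      intro A hA
      have h9 : 0 < cnt (cat X') (Symbol.nonterminal A) := (cnt_pos _ _).mpr hA
      rw [h6] at h9
      have h10 : cnt ((w (K + m)).map Symbol.terminal : List (AS T M G.N))
          (Symbol.nonterminal A) = 0 := by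
        rw [cnt_zero]
        simp
      have h11 : cnt ((w (K + n)).map Symbol.terminal : List (AS T M G.N))
          (Symbol.nonterminal A) = 0 := by
        rw [cnt_zero]
        simp
      have h12 := congrFun h4 (Symbol.nonterminal A)
      simp only [Pi.add_apply, h10, h11] at h12
      simp only [Pi.add_apply, Pi.smul_apply, h10, smul_eq_mul] at h9
      have h13 : ε (Symbol.nonterminal A) = 0 := by omega
      rw [h13] at h9
      omega
    obtain ⟨u, hu⟩ : ∃ u : List T, cat X' = u.map Symbol.terminal := by
      have key : ∀ l : List (AS T M G.N), (∀ A, Symbol.nonterminal A ∉ l) →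
          ∃ u : List T, l = u.map Symbol.terminal := by
        intro l
        induction l with
        | nil => exact fun _ => ⟨[], rfl⟩
        | cons s l ih =>
          intro hl
          obtain ⟨u, hu⟩ := ih fun A hA => hl A (List.mem_cons_of_mem _ hA)
          rcases s with t | A
          · exact ⟨t :: u, by rw [hu]; rfl⟩
          · exact absurd List.mem_cons_self (hl A)
      exact key _ hnt
    refine ⟨u, Or.inr ⟨v, hv, ?_⟩, ?_, ?_⟩
    · have e1 : (cat X).map proj = cat v := by rw [← hX1, hav]
      have e2 : (cat X').map proj = u.map Symbol.terminal := by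
        rw [hu, List.map_map]; rfl
      rw [e1, e2] at h8
      exact h8
    · have e3 : eval h (cat X') = (u.map h).prod := by
        rw [hu]
        simp only [eval, List.map_map]
        rfl
      rw [← e3, h7, ← hX1, ha2 m]
      exact hF _
    · intro t
      rw [hu] at h6
      have := congrFun h6 (Symbol.terminal t)
      simp only [Pi.add_apply, Pi.smul_apply, hterm, smul_eq_mul] at this
      exact this

end

end Pool.Agent.R574.EM
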