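import Pool.Agent.R574.EM.Queue2

set_option autoImplicit false

/-!
Every matrix grammar is simulated by a two-component even matrix grammar in both modes.
-/

namespace Pool.Agent.R574.EM.Mat

open Relation

variable {T : Type} (H : MatrixGrammar T)

abbrev R (H : MatrixGrammar T) := H.N × List (Symbol T H.N)

/-- control words: suffixes of matrices -/
def suf : Set (List (R H)) := {l | l = [] ∨ ∃ m ∈ H.matrices, l <:+ m}

theorem suf_finite : (suf H).Finite := by
  have h : suf H ⊆ {[]} ∪ ⋃ m ∈ H.matrices, {l | l ∈ m.tails} := by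
    rintro l (rfl | ⟨m, hm, hl⟩)
    · exact Or.inl rfl
    · exact Or.inr (Set.mem_biUnion hm ((List.mem_tails _ _).mpr hl))
  refine Set.Finite.subset ((Set.finite_singleton _).union ?_) h
  exact H.finite_matrices.biUnion fun m _ => List.finite_toSet _

/-- nonterminals: marked nonterminals and the dummy `D` in component 0, controls in component 1 -/
abbrev NN := ((H.N × Bool) ⊕ Unit) ⊕ suf H

abbrev Sy := Symbol T (NN H)

variable {H}

def cell (A : H.N) (b : Bool) : NN H := Sum.inl (Sum.inl (A, b))
def D : NN H := Sum.inl (Sum.inr ())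
def C (l : suf H) : NN H := Sum.inr l

def nilc : suf H := ⟨[], Or.inl rfl⟩

def comp : NN H → Fin 2
  | Sum.inl _ => 0
  | Sum.inr _ => 1

/-- marked words -/
def em : Symbol T (H.N × Bool) → Sy H
  | Symbol.terminal t => Symbol.terminal t
  | Symbol.nonterminal (A, b) => Symbol.nonterminal (cell A b)

def un : Symbol T (H.N × Bool) → Symbol T H.N
  | Symbol.terminal t => Symbol.terminal t
  | Symbol.nonterminal (A, _) => Symbol.nonterminal A

def lf : Symbol T H.N → Sy H
  | Symbol.terminal t => Symbol.terminal t
  | Symbol.nonterminal A => Symbol.nonterminal (cell A false)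

abbrev Rule (H : MatrixGrammar T) := (Fin 2 → NN H) × (Fin 2 → List (Sy H))

def nt (X : NN H) : Sy H := Symbol.nonterminal X

inductive IsRule : Rule H → Prop
  | sw (A : H.N) (b : Bool) (l : suf H) :
      IsRule (![cell A b, C l], ![[nt (cell A (!b))], [nt (C l)]])
  | rw (r : R H) (b : Bool) (l l' : suf H) (h : l'.1 = r :: l.1) :
      IsRule (![cell r.1 b, C l'], ![r.2.map lf, [nt (C l)]])
  | mat (l l' : suf H) (hl : l.1 = []) (h : l'.1 ∈ H.matrices) :
      IsRule (![D, C l], ![[nt D], [nt (C l')]])
  | fin (l : suf H) (hl : l.1 = []) : IsRule (![D, C l], ![[], []])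

theorem finite_rules : {r : Rule H | IsRule r}.Finite := by
  have := H.finite_N
  have : Finite (suf H) := suf_finite H
  have hR : (⋃ l ∈ suf H, {r : R H | r ∈ l}).Finite :=
    (suf_finite H).biUnion fun l _ => List.finite_toSet l
  have h : {r : Rule H | IsRule r} ⊆
      (Set.range fun x : H.N × Bool × suf H =>
        ((![cell x.1 x.2.1, C x.2.2], ![[nt (cell x.1 (!x.2.1))], [nt (C x.2.2)]]) : Rule H)) ∪
      ((fun x : (R H) × Bool × suf H × suf H =>
        ((![cell x.1.1 x.2.1, C x.2.2.2], ![x.1.2.map lf, [nt (C x.2.2.1)]]) : Rule H)) ''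
          ((⋃ l ∈ suf H, {r : R H | r ∈ l}) ×ˢ Set.univ)) ∪
      (Set.range fun x : suf H × suf H =>
        ((![D, C x.1], ![[nt D], [nt (C x.2)]]) : Rule H)) ∪
      (Set.range fun x : suf H => ((![D, C x], ![[], []]) : Rule H)) := by
    rintro _ (⟨A, b, l⟩ | ⟨r, b, l, l', h⟩ | ⟨l, l', _, _⟩ | ⟨l, _⟩)
    · exact Or.inl (Or.inl (Or.inl ⟨(A, b, l), rfl⟩))
    · refine Or.inl (Or.inl (Or.inr ⟨(r, b, l, l'), ⟨?_, trivial⟩, rfl⟩))
      exact Set.mem_biUnion l'.2 (by
        show r ∈ l'.1
        rw [h]; exact List.mem_cons_self)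
    · exact Or.inl (Or.inr ⟨(l, l'), rfl⟩)
    · exact Or.inr ⟨l, rfl⟩
  refine Set.Finite.subset ?_ h
  exact (((Set.finite_range _).union ((hR.prod Set.finite_univ).image _)).union
    (Set.finite_range _)).union (Set.finite_range _)

theorem comp_lf (v : List (Symbol T H.N)) :
    ∀ Z : NN H, Symbol.nonterminal Z ∈ v.map lf → comp Z = 0 := by
  intro Z hZ
  obtain ⟨s, _, hs⟩ := List.mem_map.mp hZ
  rcases s with t | A
  · cases hs
  · cases hs; rfl

theorem comp_em (v : List (Symbol T (H.N × Bool))) :
    ∀ Z : NN H, Symbol.nonterminal Z ∈ v.map em → comp Z = 0 := by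
  intro Z hZ
  obtain ⟨s, _, hs⟩ := List.mem_map.mp hZ
  rcases s with t | A
  · cases hs
  · cases hs; rfl

variable (H) in
/-- the simulating grammar -/
def G : Grammar 2 T where
  N := NN H
  finite_N := by
    have := H.finite_N
    have : Finite (suf H) := suf_finite H
    infer_instance
  comp := comp
  Pt := ∅
  Ps := {![[nt D, nt (cell H.start false)], [nt (C nilc)]]}
  P := {r | IsRule r}
  finite_Pt := Set.finite_empty
  finite_Ps := Set.finite_singleton _
  finite_P := finite_rules
  start_comp := by
    rintro v rfl i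
    fin_cases i
    · constructor
      · intro X hX
        simp only [nt] at hX
        change Symbol.nonterminal X ∈ [Symbol.nonterminal D, Symbol.nonterminal (cell _ false)] at hX
        simp only [List.mem_cons, Symbol.nonterminal.injEq, List.not_mem_nil, or_false] at hX
        rcases hX with rfl | rfl <;> rfl
      · exact ⟨D, by simp [nt]⟩
    · constructor
      · intro X hX
        simp only [nt] at hX
        change Symbol.nonterminal X ∈ [Symbol.nonterminal (C nilc)] at hX
        simp only [List.mem_cons, Symbol.nonterminal.injEq, List.not_mem_nil, or_false] at hX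
        rcases hX with rfl; rfl
      · exact ⟨C nilc, by simp [nt]⟩
  rule_comp := by
    rintro r hr i
    rcases hr with ⟨A, b, l⟩ | ⟨r, b, l, l', h⟩ | ⟨l, l', hl, h⟩ | ⟨l, hl⟩ <;> fin_cases i <;>
      refine ⟨rfl, ?_⟩ <;> intro X hX
    · simp [nt] at hX
      rw [hX]; rfl
    · simp [nt] at hX
      rw [hX]; rfl
    · exact comp_lf _ X hX
    · simp [nt] at hX
      rw [hX]; rfl
    · simp [nt] at hX
      rw [hX]; rfl
    · simp [nt] at hX
      rw [hX]; rfl
    · simp at hX
    · simp at hX

theorem step_iff {lm : Bool} {x y : List (Sy H)} : (G H).Step lm x y ↔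
    ∃ r : Rule H, IsRule r ∧ ∃ u w : Fin 2 → List (Sy H),
      (∀ i Z, Symbol.nonterminal Z ∈ u i ++ w i → comp Z = i) ∧
      (lm = true → ∀ i, Symbol.nonterminal (r.1 i) ∉ u i) ∧
      x = cat (fun i => u i ++ [Symbol.nonterminal (r.1 i)] ++ w i) ∧
      y = cat (fun i => u i ++ r.2 i ++ w i) := Iff.rfl

theorem comp_rule {r : Rule H} (hr : IsRule r) (i : Fin 2) : comp (r.1 i) = i :=
  ((G H).rule_comp r hr i).1

theorem cat_two {α : Type} (x : Fin 2 → List α) : cat x = x 0 ++ x 1 := by
  simp [cat, List.ofFn_succ]

theorem mk_step {r : Rule H} (hr : IsRule r) (u w : List (Sy H))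
    (huw : ∀ X, Symbol.nonterminal X ∈ u ++ w → comp X = 0)
    (hu : Symbol.nonterminal (r.1 0) ∉ u) {x y : List (Sy H)}
    (hx : x = u ++ [Symbol.nonterminal (r.1 0)] ++ w ++ [Symbol.nonterminal (r.1 1)])
    (hy : y = u ++ r.2 0 ++ w ++ r.2 1) : (G H).Step true x y := by
  refine step_iff.mpr ⟨r, hr, ![u, []], ![w, []], ?_, ?_, ?_, ?_⟩
  · intro i X hX
    fin_cases i
    · exact huw X hX
    · simp at hX
  · intro _ i
    fin_cases i
    · exact hu
    · simp
  · rw [cat_two, hx]; simp
  · rw [cat_two, hy]; simp

theorem last_unique {α β w1 : List (Sy H)} {X Y : NN H}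
    (hα : ∀ Z, Symbol.nonterminal Z ∈ α → comp Z = 0) (hY : comp Y = 1)
    (h : α ++ [Symbol.nonterminal X] = β ++ Symbol.nonterminal Y :: w1) :
    α = β ∧ X = Y ∧ w1 = [] := by
  rcases List.eq_nil_or_concat w1 with rfl | ⟨w2, s, rfl⟩
  · have h1 := List.append_inj' h rfl
    refine ⟨h1.1, ?_, rfl⟩
    have := h1.2
    simpa using this
  · exfalso
    have h2 : α ++ [Symbol.nonterminal X] = (β ++ Symbol.nonterminal Y :: w2) ++ [s] := by
      rw [h]; simp
    have h1 := (List.append_inj' h2 rfl).1
    have h3 := hα Y (by rw [h1]; simp)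
    rw [hY] at h3
    exact absurd h3 (by decide)

theorem step_inv {lm : Bool} {α x y : List (Sy H)} {X : NN H}
    (hα : ∀ Z, Symbol.nonterminal Z ∈ α → comp Z = 0)
    (h : (G H).Step lm x y) (hx : x = α ++ [Symbol.nonterminal X]) :
    ∃ r, IsRule r ∧ r.1 1 = X ∧ ∃ u w,
      α = u ++ Symbol.nonterminal (r.1 0) :: w ∧ y = u ++ r.2 0 ++ w ++ r.2 1 := by
  obtain ⟨r, hr, u, w, _, h2, h3, h4⟩ := step_iff.mp h
  rw [cat_two] at h3 h4
  have h5 : α ++ [Symbol.nonterminal X] =
      (u 0 ++ [Symbol.nonterminal (r.1 0)] ++ w 0 ++ u 1) ++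
        Symbol.nonterminal (r.1 1) :: w 1 := by
    rw [← hx, h3]; simp
  obtain ⟨h6, h7, h8⟩ := last_unique hα (comp_rule hr 1) h5
  refine ⟨r, hr, h7.symm, u 0, w 0 ++ u 1, ?_, ?_⟩
  · rw [h6]; simp
  · rw [h4, h8]; simp

theorem step_no {lm : Bool} {x y : List (Sy H)}
    (hα : ∀ Z, Symbol.nonterminal Z ∈ x → comp Z = 0)
    (h : (G H).Step lm x y) : False := by
  obtain ⟨r, hr, u, w, _, _, h3, _⟩ := step_iff.mp h
  have h5 : Symbol.nonterminal (r.1 1) ∈ x := by
    rw [h3, cat_two]; simp
  have h6 := hα _ h5
  rw [comp_rule hr 1] at h6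
  exact absurd h6 (by decide)

/-! ### Soundness in mode 0 -/

/-- derivable words of `H` -/
def Der (u : List (Symbol T H.N)) : Prop :=
  ReflTransGen H.Step [Symbol.nonterminal H.start] u

inductive Inv : List (Sy H) → Prop
  | run (α : List (Symbol T (H.N × Bool))) (l : suf H)
      (h : ∀ y, RewritesAll l.1 (α.map un) y → Der y) :
      Inv ([nt D] ++ α.map em ++ [Symbol.nonterminal (C l)])
  | done (α : List (Symbol T (H.N × Bool))) (h : Der (α.map un)) : Inv (α.map em)

/-- locating a cell -/
theorem locate {α : List (Symbol T (H.N × Bool))} {u w : List (Sy H)} {A : H.N} {b : Bool}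
    (h : [nt D] ++ α.map em = u ++ Symbol.nonterminal (cell A b) :: w) :
    ∃ α1 α2, α = α1 ++ Symbol.nonterminal (A, b) :: α2 ∧ u = nt D :: α1.map em ∧
      w = α2.map em := by
  cases u with
  | nil =>
    simp only [List.cons_append, List.nil_append, List.cons.injEq, nt] at h
    cases h.1
  | cons s u =>
    simp only [List.cons_append, List.nil_append, List.cons.injEq] at h
    obtain ⟨h1, h2⟩ := h
    obtain ⟨α1, α3, rfl, h3, h4⟩ := List.map_eq_append_iff.mp h2
    obtain ⟨s', α2, rfl, h5, h6⟩ := List.map_eq_cons_iff.mp h4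
    refine ⟨α1, α2, ?_, by rw [← h1, h3], h6.symm⟩
    rcases s' with t | ⟨A', b'⟩
    · cases h5
    · cases h5; rfl

theorem locateD {α : List (Symbol T (H.N × Bool))} {u w : List (Sy H)}
    (h : [nt D] ++ α.map em = u ++ Symbol.nonterminal D :: w) : u = [] ∧ w = α.map em := by
  cases u with
  | nil =>
    simp only [List.cons_append, List.nil_append, List.cons.injEq] at h
    exact ⟨rfl, h.2.symm⟩
  | cons s u =>
    exfalso
    simp only [List.cons_append, List.nil_append, List.cons.injEq] at h
    have : Symbol.nonterminal D ∈ α.map em := by rw [h.2]; simp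
    obtain ⟨s', _, h5⟩ := List.mem_map.mp this
    rcases s' with t | ⟨A', b'⟩
    · cases h5
    · cases h5

theorem un_lf (v : List (Symbol T H.N)) : ∃ β : List (Symbol T (H.N × Bool)),
    β.map em = v.map lf ∧ β.map un = v := by
  refine ⟨v.map fun s => match s with
    | Symbol.terminal t => Symbol.terminal t
    | Symbol.nonterminal A => Symbol.nonterminal (A, false), ?_, ?_⟩
  · rw [List.map_map]
    refine List.map_congr_left fun s _ => ?_
    rcases s with t | A <;> rfl
  · rw [List.map_map]
    conv_rhs => rw [← List.map_id v]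
    refine List.map_congr_left fun s _ => ?_
    rcases s with t | A <;> rfl

theorem comp_run (α : List (Symbol T (H.N × Bool))) :
    ∀ Z : NN H, Symbol.nonterminal Z ∈ [nt D] ++ α.map em → comp Z = 0 := by
  intro Z hZ
  rcases List.mem_append.mp hZ with h | h
  · simp only [nt, List.mem_singleton, Symbol.nonterminal.injEq] at h
    rw [h]; rfl
  · exact comp_em _ Z h

theorem inv_step {lm : Bool} {x y : List (Sy H)} (hx : Inv x) (h : (G H).Step lm x y) :
    Inv y := by
  rcases hx with ⟨α, l, hI⟩ | ⟨α, hI⟩
  · obtain ⟨r, hr, hX, u, w, h2, rfl⟩ := step_inv (comp_run α) h rfl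
    rcases hr with ⟨A, b, l1⟩ | ⟨r, b, l1, l2, h3⟩ | ⟨l1, l2, hl, h3⟩ | ⟨l1, hl⟩
    · have hl1 : l1 = l := by
        have : (C l1 : NN H) = C l := hX
        exact Sum.inr_injective this
      subst hl1
      obtain ⟨α1, α2, rfl, rfl, rfl⟩ := locate h2
      have e : nt D :: α1.map em ++ [nt (cell A (!b))] ++ α2.map em ++ [nt (C l1)] =
          [nt D] ++ (α1 ++ Symbol.nonterminal (A, !b) :: α2).map em ++
            [Symbol.nonterminal (C l1)] := by
        simp [nt, em]
      refine Eq.mpr (congrArg Inv e) (Inv.run _ _ ?_)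
      intro y hy
      apply hI
      simpa [un] using hy
    · have hl1 : l2 = l := by
        have : (C l2 : NN H) = C l := hX
        exact Sum.inr_injective this
      subst hl1
      obtain ⟨α1, α2, rfl, rfl, rfl⟩ := locate h2
      obtain ⟨β, hβ1, hβ2⟩ := un_lf r.2
      have e : nt D :: α1.map em ++ r.2.map lf ++ α2.map em ++ [nt (C l1)] =
          [nt D] ++ (α1 ++ β ++ α2).map em ++ [Symbol.nonterminal (C l1)] := by
        simp [nt, hβ1]
      refine Eq.mpr (congrArg Inv e) (Inv.run _ _ ?_)
      intro y hy
      apply hI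
      rw [h3]
      refine ⟨(α1 ++ β ++ α2).map un, ⟨α1.map un, α2.map un, ?_, ?_⟩, hy⟩
      · simp [un]
      · simp [hβ2]
    · have hl1 : l1 = l := by
        have : (C l1 : NN H) = C l := hX
        exact Sum.inr_injective this
      subst hl1
      obtain ⟨rfl, rfl⟩ := locateD h2
      have e : [] ++ [nt D] ++ α.map em ++ [nt (C l2)] =
          [nt D] ++ α.map em ++ [Symbol.nonterminal (C l2)] := by
        simp [nt]
      refine Eq.mpr (congrArg Inv e) (Inv.run _ _ ?_)
      intro y hy
      have h4 : Der (α.map un) := hI _ (by rw [hl]; rfl)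
      exact ReflTransGen.tail h4 ⟨l2.1, h3, hy⟩
    · have hl1 : l1 = l := by
        have : (C l1 : NN H) = C l := hX
        exact Sum.inr_injective this
      subst hl1
      obtain ⟨rfl, rfl⟩ := locateD h2
      have e : [] ++ [] ++ α.map em ++ [] = α.map em := by simp
      exact Eq.mpr (congrArg Inv e) (Inv.done _ (hI _ (by rw [hl]; rfl)))
  · exact (step_no (comp_em α) h).elim

theorem sound {lm : Bool} {w : List T} (hw : w ∈ (G H).language lm) : w ∈ H.language := by
  rcases hw with h | ⟨v, hv, h⟩
  · exact h.elim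
  have hv' : v = ![[nt D, nt (cell H.start false)], [nt (C nilc)]] := hv
  subst hv'
  have h0 : Inv (cat ![[nt D, nt (cell H.start false)], [nt (C nilc)]]) := by
    have e : cat ![[nt D, nt (cell H.start false)], [nt (C nilc)]] =
        [nt D] ++ [Symbol.nonterminal (H.start, false)].map em ++
          [Symbol.nonterminal (C (nilc (H := H)))] := by
      rw [cat_two]; simp [nt, em]
    rw [e]
    refine Inv.run _ _ ?_
    intro y hy
    have hy' : [Symbol.nonterminal H.start] = y := hy
    rw [← hy']
    exact ReflTransGen.refl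
  have key : ∀ x y : List (Sy H), ReflTransGen ((G H).Step lm) x y → Inv x → Inv y := by
    intro x y hxy hx
    induction hxy with
    | refl => exact hx
    | tail _ h2 ih => exact inv_step ih h2
  have h1 : Inv (w.map Symbol.terminal : List (Sy H)) := key _ _ h h0
  have hno : ∀ X, Symbol.nonterminal X ∉ (w.map Symbol.terminal : List (Sy H)) := by simp
  clear h h0
  generalize hW : (w.map Symbol.terminal : List (Sy H)) = W at h1 hno
  rcases h1 with ⟨α, l, hI⟩ | ⟨α, hI⟩
  · exact (hno D (by simp [nt])).elim
  · have h2 : α.map un = w.map Symbol.terminal := by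
      have key2 : ∀ (α : List (Symbol T (H.N × Bool))) (w : List T),
          (w.map Symbol.terminal : List (Sy H)) = α.map em → α.map un = w.map Symbol.terminal := by
        intro α
        induction α with
        | nil =>
          intro w h
          have : w = [] := by simpa using h
          rw [this]; rfl
        | cons s α ih =>
          intro w h
          cases w with
          | nil => simp at h
          | cons t w =>
            simp only [List.map_cons, List.cons.injEq] at h
            rcases s with t' | ⟨A, b⟩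
            · have h3 : t = t' := by
                have := h.1
                simpa [em] using this
              rw [List.map_cons, List.map_cons, ih w h.2, h3]
              rfl
            · exact absurd h.1 (by simp [em])
      exact key2 α w hW
    show Der _
    rw [← h2]
    exact hI

/-! ### Completeness in mode 1 -/

/-- the marked version of a word where the occurrences of `A` are marked -/
noncomputable def mk (A : H.N) (s : Symbol T H.N) : Sy H :=
  open Classical in if s = Symbol.nonterminal A then Symbol.nonterminal (cell A true) else lf s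

theorem comp_mk (A : H.N) (v : List (Symbol T H.N)) :
    ∀ Z : NN H, Symbol.nonterminal Z ∈ v.map (mk A) → comp Z = 0 := by
  intro Z hZ
  obtain ⟨s, _, hs⟩ := List.mem_map.mp hZ
  unfold mk at hs
  split_ifs at hs
  · cases hs; rfl
  · rcases s with t | A
    · cases hs
    · cases hs; rfl

theorem lf_ne {A : H.N} {s : Symbol T H.N} (h : s ≠ Symbol.nonterminal A) (b : Bool) :
    lf s ≠ Symbol.nonterminal (cell A b) := by
  intro h2
  rcases s with t | B
  · cases h2
  · simp only [lf, cell, Symbol.nonterminal.injEq, Sum.inl.injEq, Prod.mk.injEq] at h2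
    exact h (by rw [h2.1])

/-- switching all occurrences of `A` in `x` -/
theorem switch (A : H.N) (l : suf H) (b : Bool) (f g : Symbol T H.N → Sy H)
    (hf1 : f (Symbol.nonterminal A) = Symbol.nonterminal (cell A b))
    (hg1 : g (Symbol.nonterminal A) = Symbol.nonterminal (cell A (!b)))
    (hfg : ∀ s, s ≠ Symbol.nonterminal A → f s = lf s ∧ g s = lf s) (rest : List (Sy H))
    (hrest : ∀ Z, Symbol.nonterminal Z ∈ rest → comp Z = 0) (x : List (Symbol T H.N)) :
    ∀ p : List (Sy H), (∀ Z, Symbol.nonterminal Z ∈ p → comp Z = 0) →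
      Symbol.nonterminal (cell A b) ∉ p →
      ReflTransGen ((G H).Step true) (p ++ x.map f ++ rest ++ [nt (C l)])
        (p ++ x.map g ++ rest ++ [nt (C l)]) := by
  have hcf : ∀ s Z, f s = Symbol.nonterminal Z → comp Z = 0 := by
    intro s Z hs
    by_cases h : s = Symbol.nonterminal A
    · subst h
      rw [hf1] at hs
      cases hs; rfl
    · rw [(hfg s h).1] at hs
      rcases s with t | B
      · cases hs
      · cases hs; rfl
  induction x with
  | nil => exact fun p _ _ => ReflTransGen.refl
  | cons s x ih =>
    intro p hp1 hp2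
    by_cases h : s = Symbol.nonterminal A
    · subst h
      have h1 : (G H).Step true
          (p ++ (Symbol.nonterminal A :: x).map f ++ rest ++ [nt (C l)])
          ((p ++ [g (Symbol.nonterminal A)]) ++ x.map f ++ rest ++ [nt (C l)]) := by
        refine mk_step (IsRule.sw A b l) p (x.map f ++ rest) ?_ hp2 ?_ ?_
        · intro Z hZ
          simp only [List.mem_append, List.mem_map] at hZ
          rcases hZ with h | ⟨s, _, h⟩ | h
          · exact hp1 Z h
          · exact hcf s Z h
          · exact hrest Z h
        · rw [List.map_cons, hf1]; simp [nt]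
        · rw [hg1]; simp [nt]
      have h2 := ih (p ++ [g (Symbol.nonterminal A)]) (by
        intro Z hZ
        rcases List.mem_append.mp hZ with h | h
        · exact hp1 Z h
        · rw [hg1] at h
          simp only [List.mem_singleton, Symbol.nonterminal.injEq] at h
          rw [h]; rfl) (by
        intro hZ
        rcases List.mem_append.mp hZ with h | h
        · exact hp2 h
        · rw [hg1] at h
          simp [cell] at h)
      have e : p ++ (Symbol.nonterminal A :: x).map g ++ rest ++ [nt (C l)] =
          p ++ [g (Symbol.nonterminal A)] ++ x.map g ++ rest ++ [nt (C l)] := by simp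
      rw [e]
      exact ReflTransGen.head h1 h2
    · obtain ⟨h3, h4⟩ := hfg s h
      have h2 := ih (p ++ [lf s]) (by
        intro Z hZ
        rcases List.mem_append.mp hZ with h | h
        · exact hp1 Z h
        · exact comp_lf [s] Z (by simpa using h)) (by
        intro hZ
        rcases List.mem_append.mp hZ with h5 | h5
        · exact hp2 h5
        · exact lf_ne h b (List.mem_singleton.mp h5).symm)
      have e : p ++ (s :: x).map g ++ rest ++ [nt (C l)] =
          p ++ [lf s] ++ x.map g ++ rest ++ [nt (C l)] := by simp [h4]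
      have e' : p ++ (s :: x).map f ++ rest ++ [nt (C l)] =
          p ++ [lf s] ++ x.map f ++ rest ++ [nt (C l)] := by simp [h3]
      rw [e, e']
      exact h2

def str (u : List (Symbol T H.N)) (l : suf H) : List (Sy H) :=
  [nt D] ++ u.map lf ++ [nt (C l)]

theorem rewrites {r : R H} {u z : List (Symbol T H.N)} (h : Rewrites r u z) (l l' : suf H)
    (hl : l'.1 = r :: l.1) : ReflTransGen ((G H).Step true) (str u l') (str z l) := by
  obtain ⟨x, y, rfl, rfl⟩ := h
  have mk1 : mk r.1 (Symbol.nonterminal r.1) = Symbol.nonterminal (cell r.1 true) := by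
    simp [mk]
  have mk2 : ∀ s, s ≠ Symbol.nonterminal r.1 → mk r.1 s = lf s := by
    intro s hs
    simp [mk, hs]
  have h1 := switch r.1 l' false lf (mk r.1) rfl mk1 (fun s hs => ⟨rfl, mk2 s hs⟩)
    ([Symbol.nonterminal (cell r.1 false)] ++ y.map lf) (by
      intro Z hZ
      rcases List.mem_append.mp hZ with h | h
      · simp only [List.mem_singleton, Symbol.nonterminal.injEq] at h
        rw [h]; rfl
      · exact comp_lf _ Z h) x [nt D] (by
      intro Z hZ
      simp only [nt, List.mem_singleton, Symbol.nonterminal.injEq] at hZ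
      rw [hZ]; rfl) (by simp [nt, cell, D])
  have h2 : (G H).Step true
      ([nt D] ++ x.map (mk r.1) ++ ([Symbol.nonterminal (cell r.1 false)] ++ y.map lf) ++
        [nt (C l')] : List (Sy H))
      ([nt D] ++ x.map (mk r.1) ++ (r.2.map lf ++ y.map lf) ++ [nt (C l)] : List (Sy H)) := by
    refine mk_step (IsRule.rw r false l l' hl) ([nt D] ++ x.map (mk r.1)) (y.map lf) ?_ ?_ ?_ ?_
    · intro Z hZ
      simp only [List.mem_append] at hZ
      rcases hZ with (h | h) | h
      · simp only [nt, List.mem_singleton, Symbol.nonterminal.injEq] at h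
        rw [h]; rfl
      · exact comp_mk _ _ Z h
      · exact comp_lf _ Z h
    · intro hZ
      simp only [List.mem_append] at hZ
      rcases hZ with h | h
      · simp [nt, cell, D] at h
      · obtain ⟨s, _, hs⟩ := List.mem_map.mp h
        by_cases hsr : s = Symbol.nonterminal r.1
        · subst hsr
          rw [mk1] at hs
          simp [cell] at hs
        · rw [mk2 s hsr] at hs
          exact lf_ne hsr false hs
    · simp [nt]
    · simp [nt]
  have h3 := switch r.1 l true (mk r.1) lf mk1 rfl (fun s hs => ⟨mk2 s hs, rfl⟩)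
    (r.2.map lf ++ y.map lf) (by
      intro Z hZ
      rcases List.mem_append.mp hZ with h | h
      · exact comp_lf _ Z h
      · exact comp_lf _ Z h) x [nt D] (by
      intro Z hZ
      simp only [nt, List.mem_singleton, Symbol.nonterminal.injEq] at hZ
      rw [hZ]; rfl) (by simp [nt, cell, D])
  have e1 : str (x ++ [Symbol.nonterminal r.1] ++ y) l' =
      [nt D] ++ x.map lf ++ ([Symbol.nonterminal (cell r.1 false)] ++ y.map lf) ++
        [nt (C l')] := by simp [str, lf]
  have e2 : str (x ++ r.2 ++ y) l =
      [nt D] ++ x.map lf ++ (r.2.map lf ++ y.map lf) ++ [nt (C l)] := by simp [str]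
  rw [e1, e2]
  exact (h1.tail h2).trans h3

theorem rewritesAll (m : List (R H)) : ∀ (u z : List (Symbol T H.N)) (l : suf H),
    l.1 = m → RewritesAll m u z → ReflTransGen ((G H).Step true) (str u l) (str z nilc) := by
  induction m with
  | nil =>
    intro u z l hl h
    have h' : u = z := h
    subst h'
    have : l = nilc := Subtype.ext hl
    subst this
    exact ReflTransGen.refl
  | cons r m ih =>
    intro u z l hl h
    obtain ⟨v, h1, h2⟩ := h
    have hm : m ∈ suf H := by
      rcases l.2 with h | ⟨m', hm', h⟩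
      · rw [hl] at h; cases h
      · rw [hl] at h
        exact Or.inr ⟨m', hm', (List.suffix_cons r m).trans h⟩
    exact (rewrites h1 ⟨m, hm⟩ l hl).trans (ih v z ⟨m, hm⟩ rfl h2)

theorem matstep {u z : List (Symbol T H.N)} (h : H.Step u z) :
    ReflTransGen ((G H).Step true) (str u nilc) (str z nilc) := by
  obtain ⟨m, hm, h⟩ := h
  have hms : m ∈ suf H := Or.inr ⟨m, hm, List.suffix_rfl⟩
  have h1 : (G H).Step true (str u nilc) (str u ⟨m, hms⟩) := by
    refine mk_step (IsRule.mat nilc ⟨m, hms⟩ rfl hm) [] (u.map lf) ?_ ?_ ?_ ?_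
    · intro Z hZ
      exact comp_lf _ Z (by simpa using hZ)
    · simp
    · simp [str, nt]
    · simp [str, nt]
  exact ReflTransGen.head h1 (rewritesAll m u z ⟨m, hms⟩ rfl h)

theorem complete {w : List T} (hw : w ∈ H.language) : w ∈ (G H).language true := by
  refine Or.inr ⟨![[nt D, nt (cell H.start false)], [nt (C nilc)]], rfl, ?_⟩
  have e1 : cat ![[nt D, nt (cell H.start false)], [nt (C nilc)]] =
      str [Symbol.nonterminal H.start] nilc := by
    rw [cat_two]; simp [str, nt, lf]
  have key : ∀ u z : List (Symbol T H.N), ReflTransGen H.Step u z →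
      ReflTransGen ((G H).Step true) (str u nilc) (str z nilc) := by
    intro u z h
    induction h with
    | refl => exact ReflTransGen.refl
    | tail _ h2 ih => exact ih.trans (matstep h2)
  have h1 := key _ _ hw
  have h2 : (G H).Step true (str (w.map Symbol.terminal) nilc)
      (w.map Symbol.terminal : List (Sy H)) := by
    refine mk_step (IsRule.fin nilc rfl) [] ((w.map Symbol.terminal).map lf) ?_ ?_ ?_ ?_
    · intro Z hZ
      rw [List.nil_append] at hZ
      exact comp_lf _ Z hZ
    · simp
    · simp [str, nt]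
    · simp only [List.map_map]
      have : (lf ∘ Symbol.terminal : T → Sy H) = Symbol.terminal := rfl
      rw [this]
      simp
  have h3 : ReflTransGen ((G H).Step true) (str [Symbol.nonterminal H.start] nilc)
      (w.map Symbol.terminal : List (Sy H)) := h1.tail h2
  rw [← e1] at h3
  exact h3

end Pool.Agent.R574.EM.Mat

namespace Pool.Agent.R574.EM

theorem Grammar.step_mono {n : ℕ} {T : Type} (G : Grammar n T) {x y : List (Symbol T G.N)}
    (h : G.Step true x y) : G.Step false x y := by
  obtain ⟨r, hr, u, w, h1, _, h3, h4⟩ := h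
  exact ⟨r, hr, u, w, h1, by simp, h3, h4⟩

theorem Grammar.language_mono {n : ℕ} {T : Type} (G : Grammar n T) :
    G.language true ⊆ G.language false := by
  rintro w (h | ⟨v, hv, h⟩)
  · exact Or.inl h
  · have key : ∀ x y : List (Symbol T G.N), Relation.ReflTransGen (G.Step true) x y →
        Relation.ReflTransGen (G.Step false) x y := by
      intro x y h
      induction h with
      | refl => exact Relation.ReflTransGen.refl
      | tail _ h2 ih => exact ih.tail (G.step_mono h2)
    exact Or.inr ⟨v, hv, key _ _ h⟩

theorem Mat.language_true {T : Type} (H : MatrixGrammar T) :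
    (Mat.G H).language true = H.language :=
  Set.Subset.antisymm (fun _ h => Mat.sound h) (fun _ h => Mat.complete h)

theorem Mat.language_false {T : Type} (H : MatrixGrammar T) :
    (Mat.G H).language false = H.language :=
  Set.Subset.antisymm (fun _ h => Mat.sound h)
    (fun _ h => (Mat.G H).language_mono (Mat.complete h))

end Pool.Agent.R574.EM
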