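import Mathlib

set_option autoImplicit false

/-!
Petri nets: amalgamation of runs.
-/

namespace Pool.Agent.R574.EM.PN

open Relation

variable {P ι : Type}

/-- one firing; transition `t` consumes `(Tr t).1` and produces `(Tr t).2` -/
def Fire (Tr : ι → (P → ℕ) × (P → ℕ)) (μ ν : P → ℕ) : Prop :=
  ∃ t κ, μ = (Tr t).1 + κ ∧ ν = (Tr t).2 + κ

/-- runs with their history -/
inductive Run (Tr : ι → (P → ℕ) × (P → ℕ)) :
    (P → ℕ) → List (ι × (P → ℕ)) → (P → ℕ) → Prop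
  | nil (μ : P → ℕ) : Run Tr μ [] μ
  | cons {t : ι} {μ κ : P → ℕ} {l : List (ι × (P → ℕ))} {ν : P → ℕ} :
      μ = (Tr t).1 + κ → Run Tr ((Tr t).2 + κ) l ν → Run Tr μ ((t, μ) :: l) ν

variable {Tr : ι → (P → ℕ) × (P → ℕ)}

theorem exists_run {μ ν : P → ℕ} (h : ReflTransGen (Fire Tr) μ ν) : ∃ l, Run Tr μ l ν := by
  induction h using ReflTransGen.head_induction_on with
  | refl => exact ⟨[], Run.nil _⟩
  | head h1 _ ih =>
    obtain ⟨l, hl⟩ := ih
    obtain ⟨t, κ, h3, h4⟩ := h1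
    subst h4
    exact ⟨_, Run.cons h3 hl⟩

theorem Run.reach {μ ν : P → ℕ} {l : List (ι × (P → ℕ))} (h : Run Tr μ l ν) :
    ReflTransGen (Fire Tr) μ ν := by
  induction h with
  | nil μ => exact ReflTransGen.refl
  | cons h1 _ ih => exact ReflTransGen.head ⟨_, _, h1, rfl⟩ ih

theorem fire_add {μ ν : P → ℕ} (δ : P → ℕ) (h : Fire Tr μ ν) : Fire Tr (μ + δ) (ν + δ) := by
  obtain ⟨t, κ, rfl, rfl⟩ := h
  exact ⟨t, κ + δ, by rw [add_assoc], by rw [add_assoc]⟩

theorem reach_add {μ ν : P → ℕ} (δ : P → ℕ) (h : ReflTransGen (Fire Tr) μ ν) :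
    ReflTransGen (Fire Tr) (μ + δ) (ν + δ) := by
  induction h with
  | refl => exact ReflTransGen.refl
  | tail _ h2 ih => exact ih.tail (fire_add δ h2)

theorem iterate {μ δ δ' : P → ℕ} (h : ReflTransGen (Fire Tr) (μ + δ) (μ + δ')) (j : ℕ) :
    ReflTransGen (Fire Tr) (μ + j • δ) (μ + j • δ') := by
  induction j with
  | zero => simp only [zero_smul]; exact ReflTransGen.refl
  | succ j ih =>
    have h1 := reach_add (j • δ) h
    have h2 := reach_add δ' ih
    have e1 : μ + (j + 1) • δ = μ + δ + j • δ := by rw [add_smul, one_smul]; abel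
    have e2 : μ + δ' + j • δ = μ + j • δ + δ' := by abel
    have e3 : μ + (j + 1) • δ' = μ + j • δ' + δ' := by rw [add_smul, one_smul]; abel
    rw [e1, e3]
    rw [e2] at h1
    exact h1.trans h2

/-- the order on history entries -/
def R (a b : ι × (P → ℕ)) : Prop := a.1 = b.1 ∧ a.2 ≤ b.2

theorem amalgam {l l' : List (ι × (P → ℕ))} (h : List.SublistForall₂ R l l') :
    ∀ (μ δ κ ν ε : P → ℕ), ReflTransGen (Fire Tr) (μ + δ) κ → Run Tr μ l ν →
      Run Tr κ l' (ν + ε) → ∀ j : ℕ, ReflTransGen (Fire Tr) (μ + j • δ) (ν + j • ε) := by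
  induction h with
  | nil =>
    intro μ δ κ ν ε h1 h2 h3 j
    cases h2
    exact iterate (h1.trans h3.reach) j
  | @cons a₁ a₂ l₁ l₂ hR _ ih =>
    intro μ δ κ ν ε h1 h2 h3 j
    cases h2 with
    | @cons t _ κ1 _ _ e1 h4 =>
      cases h3 with
      | @cons t' _ κ2 _ _ e2 h5 =>
        obtain ⟨hR1, hR2⟩ := hR
        change t = t' at hR1
        change μ ≤ κ at hR2
        subst hR1
        obtain ⟨δ', hδ'⟩ : ∃ δ', κ = μ + δ' := ⟨κ - μ, (add_tsub_cancel_of_le hR2).symm⟩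
        have e3 : κ2 = κ1 + δ' := by
          have : (Tr t).1 + κ2 = (Tr t).1 + (κ1 + δ') := by
            rw [← e2, hδ', e1, add_assoc]
          exact add_left_cancel this
        rw [hδ'] at h1
        have h6 := iterate h1 j
        refine h6.trans (ReflTransGen.head (b := (Tr t).2 + κ1 + j • δ') ?_ ?_)
        · exact ⟨t, κ1 + j • δ', by rw [e1, add_assoc], by rw [add_assoc]⟩
        · refine ih ((Tr t).2 + κ1) δ' ((Tr t).2 + κ2) ν ε ?_ h4 h5 j
          rw [e3, add_assoc]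
  | @cons_right a l₁ l₂ _ ih =>
    intro μ δ κ ν ε h1 h2 h3 j
    cases h3 with
    | @cons t _ κ1 _ _ e1 h4 =>
      exact ih μ δ _ ν ε (h1.tail ⟨t, κ1, e1, rfl⟩) h2 h4 j

instance : IsPreorder (ι × (P → ℕ)) R where
  refl _ := ⟨rfl, le_rfl⟩
  trans _ _ _ h1 h2 := ⟨h1.1.trans h2.1, h1.2.trans h2.2⟩

theorem wqo_R [Finite ι] [Finite P] : WellQuasiOrdered (R : ι × (P → ℕ) → ι × (P → ℕ) → Prop) :=
  (Finite.wellQuasiOrdered (fun a b : ι => a = b)).prod (r := fun a b : ι => a = b)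
    (s := fun a b : P → ℕ => a ≤ b) wellQuasiOrdered_le

theorem wqo_list [Finite ι] [Finite P] :
    WellQuasiOrdered (List.SublistForall₂ (R : ι × (P → ℕ) → ι × (P → ℕ) → Prop)) := by
  have h := Set.PartiallyWellOrderedOn.partiallyWellOrderedOn_sublistForall₂
    (R : ι × (P → ℕ) → ι × (P → ℕ) → Prop) (s := Set.univ) (by
      intro f
      obtain ⟨m, n, h1, h2⟩ := wqo_R (fun k => (f k).1)
      exact ⟨m, n, h1, h2⟩)
  intro f
  obtain ⟨m, n, h1, h2⟩ := h (fun k => ⟨f k, fun _ _ => trivial⟩)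
  exact ⟨m, n, h1, h2⟩

instance : IsPreorder (List (ι × (P → ℕ))) (List.SublistForall₂ R) where
  refl l := refl_of (List.SublistForall₂ R) l
  trans _ _ _ h1 h2 := trans_of (List.SublistForall₂ R) h1 h2

/-- **Pumping.** Among infinitely many runs from finitely many initial markings, two can be
amalgamated. -/
theorem pump [Finite ι] [Finite P] (I : Set (P → ℕ)) (hI : I.Finite) (μ ν : ℕ → P → ℕ)
    (hμ : ∀ k, μ k ∈ I) (h : ∀ k, ReflTransGen (Fire Tr) (μ k) (ν k)) :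
    ∃ m n, m < n ∧ ∃ ε, ν n = ν m + ε ∧
      ∀ j : ℕ, ReflTransGen (Fire Tr) (μ m) (ν m + j • ε) := by
  haveI : Finite I := hI
  choose l hl using fun k => exists_run (h k)
  have w1 : WellQuasiOrdered (fun a b : I => a = b) := Finite.wellQuasiOrdered _
  have w2 : WellQuasiOrdered (fun a b : P → ℕ => a ≤ b) := wellQuasiOrdered_le
  have w3 := (w2.prod (wqo_list (ι := ι) (P := P)))
  haveI : IsPreorder ((P → ℕ) × List (ι × (P → ℕ)))
      (fun a b => a.1 ≤ b.1 ∧ List.SublistForall₂ R a.2 b.2) :=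
    { refl := fun a => ⟨le_rfl, refl_of (List.SublistForall₂ R) _⟩
      trans := fun a b c h1 h2 => ⟨h1.1.trans h2.1, trans_of (List.SublistForall₂ R) h1.2 h2.2⟩ }
  have w4 := w1.prod w3
  obtain ⟨m, n, h1, h2, h3, h4⟩ := w4 (fun k => (⟨μ k, hμ k⟩, ν k, l k))
  have e1 : μ m = μ n := congrArg Subtype.val h2
  change ν m ≤ ν n at h3
  change List.SublistForall₂ R (l m) (l n) at h4
  refine ⟨m, n, h1, ν n - ν m, (add_tsub_cancel_of_le h3).symm, fun j => ?_⟩
  have h5 := amalgam (Tr := Tr) h4 (μ m) 0 (μ n) (ν m) (ν n - ν m)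
    (by rw [add_zero, e1]) (hl m) (by rw [add_tsub_cancel_of_le h3]; exact hl n) j
  rwa [smul_zero, add_zero] at h5

end Pool.Agent.R574.EM.PN
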