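import Pool.Agent.R574.EM.Annot

set_option autoImplicit false

/-!
An even matrix grammar of degree two which, in mode 1, simulates a queue.
-/

namespace Pool.Agent.R574.EM.Queue

open Relation

/-- the nonterminals: `A` (a cell of the queue), `D` (the tail) in the first component,
`E`, `Q x`, `F` (the control) in the second -/
inductive NT
  | A | D | E | Q (x : Bool) | F
  deriving DecidableEq

instance : Finite NT := by
  refine Finite.of_surjective (α := Option (Option (Option (Option Bool))))
    (fun x => match x with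
      | none => NT.A
      | some none => NT.D
      | some (some none) => NT.E
      | some (some (some none)) => NT.F
      | some (some (some (some x))) => NT.Q x) ?_
  rintro (_ | _ | _ | x | _)
  · exact ⟨none, rfl⟩
  · exact ⟨some none, rfl⟩
  · exact ⟨some (some none), rfl⟩
  · exact ⟨some (some (some (some x))), rfl⟩
  · exact ⟨some (some (some none)), rfl⟩

abbrev Sy := Symbol Bool NT

/-- the component of a nonterminal -/
def comp : NT → Fin 2
  | NT.A => 0
  | NT.D => 0
  | _ => 1

/-- the word enqueued after `x` has been dequeued -/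
def phi : Bool → List Bool
  | false => [false]
  | true => [false, true]

/-- cells -/
def pend (q : List Bool) : List Sy := q.flatMap fun y => [Symbol.terminal y, Symbol.nonterminal NT.A]

/-- finished cells -/
def prs (p : List (Bool × Bool)) : List Sy :=
  p.flatMap fun z => [Symbol.terminal z.1, Symbol.terminal z.2]

theorem pend_append (a b : List Bool) : pend (a ++ b) = pend a ++ pend b := by simp [pend]

theorem pend_cons (a : Bool) (b : List Bool) :
    pend (a :: b) = Symbol.terminal a :: Symbol.nonterminal NT.A :: pend b := by simp [pend]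

theorem prs_append (a b : List (Bool × Bool)) : prs (a ++ b) = prs a ++ prs b := by simp [prs]

theorem mem_pend {q : List Bool} {X : NT} (h : Symbol.nonterminal X ∈ pend q) : X = NT.A := by
  simp only [pend, List.mem_flatMap] at h
  obtain ⟨y, _, h⟩ := h
  simpa using h

theorem notMem_prs (p : List (Bool × Bool)) (X : NT) : Symbol.nonterminal X ∉ prs p := by
  simp [prs]

abbrev Rule := (Fin 2 → NT) × (Fin 2 → List Sy)

def nt (X : NT) : Sy := Symbol.nonterminal X

def tm (x : Bool) : Sy := Symbol.terminal x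

/-- the rules -/
inductive IsRule : Rule → Prop
  | deq (x : Bool) : IsRule (![NT.A, NT.E], ![[tm x], [nt (NT.Q x)]])
  | enq (x : Bool) : IsRule (![NT.D, NT.Q x], ![pend (phi x) ++ [nt NT.D], [nt NT.E]])
  | fin : IsRule (![NT.D, NT.E], ![[], [nt NT.F]])
  | deqF (x : Bool) : IsRule (![NT.A, NT.F], ![[tm x], [nt NT.F]])
  | last (x : Bool) : IsRule (![NT.A, NT.F], ![[tm x], []])

theorem finite_rules : {r | IsRule r}.Finite := by
  have h : {r | IsRule r} ⊆
      (Set.range fun x : Bool => (![NT.A, NT.E], ![[tm x], [nt (NT.Q x)]])) ∪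
      (Set.range fun x : Bool => (![NT.D, NT.Q x], ![pend (phi x) ++ [nt NT.D], [nt NT.E]])) ∪
      {(![NT.D, NT.E], ![[], [nt NT.F]])} ∪
      (Set.range fun x : Bool => (![NT.A, NT.F], ![[tm x], [nt NT.F]])) ∪
      (Set.range fun x : Bool => (![NT.A, NT.F], ![[tm x], []])) := by
    rintro r (x | x | _ | x | x)
    · exact Or.inl (Or.inl (Or.inl (Or.inl ⟨x, rfl⟩)))
    · exact Or.inl (Or.inl (Or.inl (Or.inr ⟨x, rfl⟩)))
    · exact Or.inl (Or.inl (Or.inr rfl))
    · exact Or.inl (Or.inr ⟨x, rfl⟩)
    · exact Or.inr ⟨x, rfl⟩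
  refine Set.Finite.subset ?_ h
  exact (((((Set.finite_range _).union (Set.finite_range _)).union (Set.finite_singleton _)).union
    (Set.finite_range _)).union (Set.finite_range _))

/-- the grammar -/
def G : Grammar 2 Bool where
  N := NT
  finite_N := inferInstance
  comp := comp
  Pt := ∅
  Ps := {![pend [true] ++ [nt NT.D], [nt NT.E]]}
  P := {r | IsRule r}
  finite_Pt := Set.finite_empty
  finite_Ps := Set.finite_singleton _
  finite_P := finite_rules
  start_comp := by
    rintro v rfl i
    fin_cases i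
    · constructor
      · intro X hX
        simp only [nt] at hX
        rcases List.mem_append.mp hX with h | h
        · rw [mem_pend h]; rfl
        · simp only [List.mem_singleton, Symbol.nonterminal.injEq] at h
          rw [h]; rfl
      · exact ⟨NT.D, by simp [nt]⟩
    · constructor
      · intro X hX
        simp only [nt] at hX
        change Symbol.nonterminal X ∈ [Symbol.nonterminal NT.E] at hX
        simp only [List.mem_singleton, Symbol.nonterminal.injEq] at hX
        rw [hX]; rfl
      · exact ⟨NT.E, by simp [nt]⟩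
  rule_comp := by
    rintro r hr i
    rcases hr with x | x | _ | x | x <;> fin_cases i <;> refine ⟨rfl, ?_⟩ <;> intro X hX
    · simp [tm] at hX
    · simp [nt] at hX
      rw [hX]; rfl
    · simp only [nt] at hX
      rcases List.mem_append.mp hX with h | h
      · rw [mem_pend h]; rfl
      · simp only [List.mem_singleton, Symbol.nonterminal.injEq] at h
        rw [h]; rfl
    · simp [nt] at hX
      rw [hX]; rfl
    · simp at hX
    · simp [nt] at hX
      rw [hX]; rfl
    · simp [tm] at hX
    · simp [nt] at hX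
      rw [hX]; rfl
    · simp [tm] at hX
    · simp at hX

theorem step_iff {lm : Bool} {x y : List Sy} : G.Step lm x y ↔
    ∃ r : Rule, IsRule r ∧ ∃ u w : Fin 2 → List Sy,
      (∀ i Z, Symbol.nonterminal Z ∈ u i ++ w i → comp Z = i) ∧
      (lm = true → ∀ i, Symbol.nonterminal (r.1 i) ∉ u i) ∧
      x = cat (fun i => u i ++ [Symbol.nonterminal (r.1 i)] ++ w i) ∧
      y = cat (fun i => u i ++ r.2 i ++ w i) := Iff.rfl

theorem comp_rule {r : Rule} (hr : IsRule r) (i : Fin 2) : comp (r.1 i) = i :=
  (G.rule_comp r hr i).1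

theorem cat_two (x : Fin 2 → List Sy) : cat x = x 0 ++ x 1 := by
  simp [cat, List.ofFn_succ]

/-- derivation steps are produced from a splitting -/
theorem mk_step {r : Rule} (hr : IsRule r) (u w : List Sy)
    (huw : ∀ X, Symbol.nonterminal X ∈ u ++ w → comp X = 0)
    (hu : Symbol.nonterminal (r.1 0) ∉ u) {x y : List Sy}
    (hx : x = u ++ [Symbol.nonterminal (r.1 0)] ++ w ++ [Symbol.nonterminal (r.1 1)])
    (hy : y = u ++ r.2 0 ++ w ++ r.2 1) : G.Step true x y := by
  refine step_iff.mpr ⟨r, hr, ![u, []], ![w, []], ?_, ?_, ?_, ?_⟩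
  · intro i X hX
    fin_cases i
    · exact huw X hX
    · simp at hX
  · intro _ i
    fin_cases i
    · exact hu
    · simp
  · rw [cat_two, hx]; simp
  · rw [cat_two, hy]; simp

theorem last_unique {α β w1 : List Sy} {X Y : NT}
    (hα : ∀ Z, Symbol.nonterminal Z ∈ α → comp Z = 0) (hY : comp Y = 1)
    (h : α ++ [Symbol.nonterminal X] = β ++ Symbol.nonterminal Y :: w1) :
    α = β ∧ X = Y ∧ w1 = [] := by
  rcases List.eq_nil_or_concat w1 with rfl | ⟨w2, s, rfl⟩
  · have h1 := List.append_inj' h rfl
    refine ⟨h1.1, ?_, rfl⟩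
    have := h1.2
    simpa using this
  · exfalso
    have h2 : α ++ [Symbol.nonterminal X] = (β ++ Symbol.nonterminal Y :: w2) ++ [s] := by
      rw [h]; simp
    have h1 := (List.append_inj' h2 rfl).1
    have h3 := hα Y (by rw [h1]; simp)
    rw [hY] at h3
    exact absurd h3 (by decide)

/-- a step from a word ending with its only nonterminal of the second component -/
theorem step_inv {α x y : List Sy} {X : NT} (hα : ∀ Z, Symbol.nonterminal Z ∈ α → comp Z = 0)
    (h : G.Step true x y) (hx : x = α ++ [Symbol.nonterminal X]) :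
    ∃ r, IsRule r ∧ r.1 1 = X ∧ ∃ u w, Symbol.nonterminal (r.1 0) ∉ u ∧
      α = u ++ Symbol.nonterminal (r.1 0) :: w ∧ y = u ++ r.2 0 ++ w ++ r.2 1 := by
  obtain ⟨r, hr, u, w, _, h2, h3, h4⟩ := step_iff.mp h
  rw [cat_two] at h3 h4
  have h5 : α ++ [Symbol.nonterminal X] =
      (u 0 ++ [Symbol.nonterminal (r.1 0)] ++ w 0 ++ u 1) ++
        Symbol.nonterminal (r.1 1) :: w 1 := by
    rw [← hx, h3]; simp
  obtain ⟨h6, h7, h8⟩ := last_unique hα (comp_rule hr 1) h5
  refine ⟨r, hr, h7.symm, u 0, w 0 ++ u 1, h2 rfl 0, ?_, ?_⟩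
  · rw [h6]; simp
  · rw [h4, h8]; simp

theorem step_no {x y : List Sy} (hα : ∀ Z, Symbol.nonterminal Z ∈ x → comp Z = 0)
    (h : G.Step true x y) : False := by
  obtain ⟨r, hr, u, w, _, _, h3, _⟩ := step_iff.mp h
  have h5 : Symbol.nonterminal (r.1 1) ∈ x := by
    rw [h3, cat_two]; simp
  have h6 := hα _ h5
  rw [comp_rule hr 1] at h6
  exact absurd h6 (by decide)

theorem leftmost_unique {α : Type} {a : α} {l1 l2 r1 r2 : List α}
    (h : l1 ++ a :: r1 = l2 ++ a :: r2) (h1 : a ∉ l1) (h2 : a ∉ l2) : l1 = l2 ∧ r1 = r2 := by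
  induction l1 generalizing l2 with
  | nil =>
    cases l2 with
    | nil => exact ⟨rfl, by simpa using h⟩
    | cons b l2 =>
      simp only [List.nil_append, List.cons_append, List.cons.injEq] at h
      exact absurd (by rw [h.1]; exact List.mem_cons_self) h2
  | cons b l1 ih =>
    cases l2 with
    | nil =>
      simp only [List.nil_append, List.cons_append, List.cons.injEq] at h
      exact absurd (by rw [h.1]; exact List.mem_cons_self) h1
    | cons c l2 =>
      simp only [List.cons_append, List.cons.injEq] at h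
      obtain ⟨h3, h4⟩ := ih h.2 (fun h => h1 (List.mem_cons_of_mem _ h))
        (fun h => h2 (List.mem_cons_of_mem _ h))
      exact ⟨by rw [h.1, h3], h4⟩

/-- the leftmost cell -/
theorem leftA {p : List (Bool × Bool)} {q : List Bool} {z u w : List Sy}
    (hz : Symbol.nonterminal NT.A ∉ z) (hu : Symbol.nonterminal NT.A ∉ u)
    (h : prs p ++ pend q ++ z = u ++ Symbol.nonterminal NT.A :: w) :
    ∃ y q', q = y :: q' ∧ u = prs p ++ [tm y] ∧ w = pend q' ++ z := by
  cases q with
  | nil =>
    exfalso
    have : Symbol.nonterminal NT.A ∈ prs p ++ pend [] ++ z := by rw [h]; simp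
    simp only [pend, List.flatMap_nil, List.append_nil, List.mem_append] at this
    rcases this with h1 | h1
    · exact notMem_prs _ _ h1
    · exact hz h1
  | cons y q' =>
    refine ⟨y, q', rfl, ?_⟩
    have h1 : (prs p ++ [tm y]) ++ Symbol.nonterminal NT.A :: (pend q' ++ z) =
        u ++ Symbol.nonterminal NT.A :: w := by
      rw [← h, pend_cons]; simp [tm]
    obtain ⟨h2, h3⟩ := leftmost_unique h1 (by
      simp only [List.mem_append, List.mem_singleton, tm]
      rintro (h2 | h2)
      · exact notMem_prs _ _ h2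
      · cases h2) hu
    exact ⟨h2.symm, h3.symm⟩

/-- the unique tail -/
theorem leftD {p : List (Bool × Bool)} {q : List Bool} {u w : List Sy}
    (hu : Symbol.nonterminal NT.D ∉ u)
    (h : prs p ++ pend q ++ [nt NT.D] = u ++ Symbol.nonterminal NT.D :: w) :
    u = prs p ++ pend q ∧ w = [] := by
  obtain ⟨h2, h3⟩ := leftmost_unique (l1 := prs p ++ pend q) (r1 := []) (l2 := u) (r2 := w) h (by
    simp only [List.mem_append]
    rintro (h2 | h2)
    · exact notMem_prs _ _ h2
    · exact absurd (mem_pend h2) (by decide)) hu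
  exact ⟨h2.symm, h3.symm⟩

theorem noD {p : List (Bool × Bool)} {q : List Bool} {u w : List Sy}
    (h : prs p ++ pend q = u ++ Symbol.nonterminal NT.D :: w) : False := by
  have : Symbol.nonterminal NT.D ∈ prs p ++ pend q := by rw [h]; simp
  rcases List.mem_append.mp this with h2 | h2
  · exact notMem_prs _ _ h2
  · exact absurd (mem_pend h2) (by decide)

/-- the invariant of the mode 1 derivations -/
inductive Inv : List Sy → Prop
  | E (p : List (Bool × Bool)) (q : List Bool)
      (h : p.map Prod.fst ++ q = true :: (p.map Prod.snd).flatMap phi) :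
      Inv (prs p ++ pend q ++ [nt NT.D] ++ [Symbol.nonterminal NT.E])
  | Q (p : List (Bool × Bool)) (q c : List Bool) (s : Bool) (hc : p.map Prod.snd = c ++ [s])
      (h : p.map Prod.fst ++ q = true :: c.flatMap phi) :
      Inv (prs p ++ pend q ++ [nt NT.D] ++ [Symbol.nonterminal (NT.Q s)])
  | F (p : List (Bool × Bool)) (q c : List Bool) (hc : c <+: p.map Prod.snd)
      (h : p.map Prod.fst ++ q = true :: c.flatMap phi) :
      Inv (prs p ++ pend q ++ [Symbol.nonterminal NT.F])
  | done (p : List (Bool × Bool)) (q c : List Bool) (hc : c <+: p.map Prod.snd)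
      (h : p.map Prod.fst ++ q = true :: c.flatMap phi) :
      Inv (prs p ++ pend q)

theorem comp_D (p : List (Bool × Bool)) (q : List Bool) :
    ∀ Z, Symbol.nonterminal Z ∈ prs p ++ pend q ++ [nt NT.D] → comp Z = 0 := by
  intro Z hZ
  simp only [List.mem_append, List.mem_singleton, nt, Symbol.nonterminal.injEq] at hZ
  rcases hZ with (h | h) | h
  · exact absurd h (notMem_prs _ _)
  · rw [mem_pend h]; rfl
  · rw [h]; rfl

theorem comp_F (p : List (Bool × Bool)) (q : List Bool) :
    ∀ Z, Symbol.nonterminal Z ∈ prs p ++ pend q → comp Z = 0 := by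
  intro Z hZ
  simp only [List.mem_append] at hZ
  rcases hZ with h | h
  · exact absurd h (notMem_prs _ _)
  · rw [mem_pend h]; rfl

theorem prs_snoc (p : List (Bool × Bool)) (y x : Bool) :
    prs (p ++ [(y, x)]) = prs p ++ [tm y] ++ [tm x] := by
  rw [prs_append]; simp [prs, tm]

theorem inv_step {x y : List Sy} (hx : Inv x) (h : G.Step true x y) : Inv y := by
  rcases hx with ⟨p, q, h1⟩ | ⟨p, q, c, s, hc, h1⟩ | ⟨p, q, c, hc, h1⟩ | ⟨p, q, c, hc, h1⟩
  · obtain ⟨r, hr, hX, u, w, hu, h2, rfl⟩ := step_inv (comp_D p q) h rfl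
    rcases hr with x | x | _ | x | x
    · obtain ⟨y, q', rfl, rfl, rfl⟩ := leftA (z := [nt NT.D]) (by simp [nt]) hu h2
      have : prs p ++ [tm y] ++ [tm x] ++ (pend q' ++ [nt NT.D]) ++ [nt (NT.Q x)] =
          prs (p ++ [(y, x)]) ++ pend q' ++ [nt NT.D] ++ [Symbol.nonterminal (NT.Q x)] := by
        rw [prs_snoc]; simp [nt]
      refine Eq.mpr (congrArg Inv this) (Inv.Q _ _ (p.map Prod.snd) x (by simp) ?_)
      rw [← h1]; simp
    · exact absurd hX (by simp)
    · obtain ⟨rfl, rfl⟩ := leftD hu h2
      have : prs p ++ pend q ++ [] ++ [] ++ [nt NT.F] =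
          prs p ++ pend q ++ [Symbol.nonterminal NT.F] := by simp [nt]
      exact Eq.mpr (congrArg Inv this) (Inv.F _ _ (p.map Prod.snd) List.prefix_rfl h1)
    · exact absurd hX (by simp)
    · exact absurd hX (by simp)
  · obtain ⟨r, hr, hX, u, w, hu, h2, rfl⟩ := step_inv (comp_D p q) h rfl
    rcases hr with x | x | _ | x | x
    · exact absurd hX (by simp)
    · have hxs : x = s := by simpa using hX
      subst hxs
      obtain ⟨rfl, rfl⟩ := leftD hu h2
      have : prs p ++ pend q ++ (pend (phi x) ++ [nt NT.D]) ++ [] ++ [nt NT.E] =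
          prs p ++ pend (q ++ phi x) ++ [nt NT.D] ++ [Symbol.nonterminal NT.E] := by
        rw [pend_append]; simp [nt]
      refine Eq.mpr (congrArg Inv this) (Inv.E _ _ ?_)
      rw [← List.append_assoc, h1, hc]
      simp
    · exact absurd hX (by simp)
    · exact absurd hX (by simp)
    · exact absurd hX (by simp)
  · obtain ⟨r, hr, hX, u, w, hu, h2, rfl⟩ := step_inv (comp_F p q) h rfl
    rcases hr with x | x | _ | x | x
    · exact absurd hX (by simp)
    · exact absurd hX (by simp)
    · exact absurd hX (by simp)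
    · obtain ⟨y, q', rfl, rfl, rfl⟩ := leftA (z := []) (by simp) hu (by rw [List.append_nil]; exact h2)
      have : prs p ++ [tm y] ++ [tm x] ++ (pend q' ++ []) ++ [nt NT.F] =
          prs (p ++ [(y, x)]) ++ pend q' ++ [Symbol.nonterminal NT.F] := by
        rw [prs_snoc]; simp [nt]
      refine Eq.mpr (congrArg Inv this) (Inv.F _ _ c (hc.trans (by simp)) ?_)
      rw [← h1]; simp
    · obtain ⟨y, q', rfl, rfl, rfl⟩ := leftA (z := []) (by simp) hu (by rw [List.append_nil]; exact h2)
      have : prs p ++ [tm y] ++ [tm x] ++ (pend q' ++ []) ++ [] =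
          prs (p ++ [(y, x)]) ++ pend q' := by
        rw [prs_snoc]; simp
      refine Eq.mpr (congrArg Inv this) (Inv.done _ _ c (hc.trans (by simp)) ?_)
      rw [← h1]; simp
  · exact (step_no (comp_F p q) h).elim

/-- words generated in mode 1 -/
theorem mem_language {w : List Bool} (h : w ∈ G.language true) :
    ∃ (p : List (Bool × Bool)) (c : List Bool), w = p.flatMap (fun z => [z.1, z.2]) ∧
      c <+: p.map Prod.snd ∧ p.map Prod.fst = true :: c.flatMap phi := by
  rcases h with h | ⟨v, hv, h⟩
  · exact h.elim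
  have hv' : v = ![pend [true] ++ [nt NT.D], [nt NT.E]] := hv
  subst hv'
  have h0 : Inv (cat ![pend [true] ++ [nt NT.D], [nt NT.E]]) := by
    have : cat ![pend [true] ++ [nt NT.D], [nt NT.E]] =
        prs [] ++ pend [true] ++ [nt NT.D] ++ [Symbol.nonterminal NT.E] := by
      rw [cat_two]; simp [prs, nt]
    rw [this]
    exact Inv.E [] [true] (by simp)
  have key : ∀ x y : List Sy, ReflTransGen (G.Step true) x y → Inv x → Inv y := by
    intro x y hxy hx
    induction hxy with
    | refl => exact hx
    | tail _ h2 ih => exact inv_step ih h2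
  have h1 := key _ _ h h0
  have h1' : Inv (w.map Symbol.terminal : List Sy) := h1
  have hno : ∀ X, Symbol.nonterminal X ∉ (w.map Symbol.terminal : List Sy) := by simp
  clear h1 h
  generalize hW : (w.map Symbol.terminal : List Sy) = W at h1' hno
  rcases h1' with ⟨p, q, h1⟩ | ⟨p, q, c, s, hc, h1⟩ | ⟨p, q, c, hc, h1⟩ | ⟨p, q, c, hc, h1⟩
  · exact (hno NT.E (by simp)).elim
  · exact (hno (NT.Q s) (by simp)).elim
  · exact (hno NT.F (by simp)).elim
  · cases q with
    | cons y q => exact (hno NT.A (by rw [pend_cons]; simp)).elim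
    | nil =>
      refine ⟨p, c, ?_, hc, by simpa using h1⟩
      have h2 : (w.map Symbol.terminal : List Sy) =
          (p.flatMap (fun z => [z.1, z.2])).map Symbol.terminal := by
        rw [hW]
        simp [pend, prs, List.map_flatMap]
      exact List.map_injective_iff.mpr (fun a b hab => by cases hab; rfl) h2

end Pool.Agent.R574.EM.Queue
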