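import Pool.Agent.R574.EM.Queue

set_option autoImplicit false

/-!
Words of the queue grammar, growth, and the contradiction with amalgamation.
-/

namespace Pool.Agent.R574.EM.Queue

open Relation

/-- sentential forms with finished cells `(x, x)` for `x` in `c` -/
def dg (c : List Bool) : List (Bool × Bool) := c.map fun x => (x, x)

theorem dg_append (a b : List Bool) : dg (a ++ b) = dg a ++ dg b := by simp [dg]

def st (c f : List Bool) : List Sy := prs (dg c) ++ pend f ++ [nt NT.D] ++ [nt NT.E]

def stF (c f : List Bool) : List Sy := prs (dg c) ++ pend f ++ [nt NT.F]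

theorem notA (c : List Bool) (x : Bool) : Symbol.nonterminal NT.A ∉ prs (dg c) ++ [tm x] := by
  simp only [List.mem_append, List.mem_singleton, tm]
  rintro (h2 | h2)
  · exact notMem_prs _ _ h2
  · cases h2

theorem comp_cells (c f : List Bool) (x : Bool) :
    ∀ X, Symbol.nonterminal X ∈ (prs (dg c) ++ [tm x]) ++ pend f → comp X = 0 := by
  intro X hX
  simp only [List.mem_append, List.mem_singleton, tm] at hX
  rcases hX with (h | h) | h
  · exact absurd h (notMem_prs _ _)
  · cases h
  · rw [mem_pend h]; rfl

theorem comp_cells' (c f : List Bool) (x : Bool) :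
    ∀ X, Symbol.nonterminal X ∈ (prs (dg c) ++ [tm x]) ++ (pend f ++ [nt NT.D]) → comp X = 0 := by
  intro X hX
  simp only [List.mem_append, List.mem_singleton, tm, nt] at hX
  rcases hX with (h | h) | (h | h)
  · exact absurd h (notMem_prs _ _)
  · cases h
  · rw [mem_pend h]; rfl
  · cases h; rfl

/-- dequeue `x`, enqueue `phi x` -/
theorem move (c f : List Bool) (x : Bool) :
    ReflTransGen (G.Step true) (st c (x :: f)) (st (c ++ [x]) (f ++ phi x)) := by
  have h1 : G.Step true (st c (x :: f))
      (prs (dg (c ++ [x])) ++ pend f ++ [nt NT.D] ++ [nt (NT.Q x)]) := by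
    refine mk_step (IsRule.deq x) (prs (dg c) ++ [tm x]) (pend f ++ [nt NT.D])
      (comp_cells' c f x) (notA c x) ?_ ?_
    · simp [st, pend_cons, nt, tm]
    · simp [dg, prs, tm]
  have h2 : G.Step true (prs (dg (c ++ [x])) ++ pend f ++ [nt NT.D] ++ [nt (NT.Q x)])
      (st (c ++ [x]) (f ++ phi x)) := by
    refine mk_step (IsRule.enq x) (prs (dg (c ++ [x])) ++ pend f) []
      (by rw [List.append_nil]; exact comp_F _ _) ?_ ?_ ?_
    · intro h
      rcases List.mem_append.mp h with h | h
      · exact notMem_prs _ _ h
      · exact absurd (mem_pend h) (by simp)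
    · simp [nt]
    · simp [st, pend_append, nt]
  exact (ReflTransGen.single h1).tail h2

theorem toF (c f : List Bool) : G.Step true (st c f) (stF c f) := by
  refine mk_step IsRule.fin (prs (dg c) ++ pend f) []
    (by rw [List.append_nil]; exact comp_F _ _) ?_ ?_ ?_
  · intro h
    rcases List.mem_append.mp h with h | h
    · exact notMem_prs _ _ h
    · exact absurd (mem_pend h) (by simp)
  · simp [nt, st]
  · simp [stF, nt]

theorem finish (f : List Bool) : ∀ (x : Bool) (c : List Bool),
    ReflTransGen (G.Step true) (stF c (x :: f)) (prs (dg (c ++ x :: f))) := by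
  induction f with
  | nil =>
    intro x c
    refine ReflTransGen.single (mk_step (IsRule.last x) (prs (dg c) ++ [tm x]) []
      (comp_cells c [] x) (notA c x) ?_ ?_)
    · simp [stF, pend_cons, nt, tm]
      simp [pend]
    · simp [dg, prs, tm]
  | cons y f ih =>
    intro x c
    have h1 : G.Step true (stF c (x :: y :: f)) (stF (c ++ [x]) (y :: f)) := by
      refine mk_step (IsRule.deqF x) (prs (dg c) ++ [tm x]) (pend (y :: f))
        (comp_cells c (y :: f) x) (notA c x) ?_ ?_
      · simp [stF, pend_cons, nt, tm]
      · simp [stF, dg, prs, tm]
    have h2 := ih y (c ++ [x])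
    rw [List.append_assoc] at h2
    exact ReflTransGen.head h1 h2

theorem advance (pre : List Bool) : ∀ (c post : List Bool), true ∉ pre →
    c ++ (pre ++ true :: post) = true :: c.flatMap phi →
    ∃ c' f', ReflTransGen (G.Step true) (st c (pre ++ true :: post)) (st c' f') ∧
      c' ++ f' = true :: c'.flatMap phi ∧ c'.count true = c.count true + 1 ∧ true ∈ f' := by
  induction pre with
  | nil =>
    intro c post _ h
    refine ⟨c ++ [true], post ++ phi true, move c post true, ?_, ?_, ?_⟩
    · rw [List.flatMap_append, ← List.cons_append, ← h]
      simp
    · simp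
    · simp [phi]
  | cons x pre ih =>
    intro c post hpre h
    have hx : x = false := by
      cases x with
      | false => rfl
      | true => exact absurd List.mem_cons_self hpre
    subst hx
    have e : (pre ++ true :: post) ++ phi false = pre ++ true :: (post ++ phi false) := by simp
    obtain ⟨c', f', h1, h2, h3, h4⟩ := ih (c ++ [false]) (post ++ phi false)
      (fun h => hpre (List.mem_cons_of_mem _ h)) (by
        have e2 : true :: (c ++ [false]).flatMap phi = (true :: c.flatMap phi) ++ phi false := by
          simp
        rw [e2, ← h]
        simp)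
    refine ⟨c', f', ?_, h2, by rw [h3]; simp, h4⟩
    have h5 := move c (pre ++ true :: post) false
    rw [e] at h5
    exact h5.trans h1

theorem reach (k : ℕ) : ∃ c f, ReflTransGen (G.Step true) (st [] [true]) (st c f) ∧
      c ++ f = true :: c.flatMap phi ∧ c.count true = k ∧ true ∈ f := by
  induction k with
  | zero => exact ⟨[], [true], ReflTransGen.refl, by simp, by simp, by simp⟩
  | succ k ih =>
    obtain ⟨c, f, h1, h2, h3, h4⟩ := ih
    obtain ⟨pre, post, rfl, h5⟩ := List.eq_append_cons_of_mem h4
    obtain ⟨c', f', h6, h7, h8, h9⟩ := advance pre c post h5 h2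
    exact ⟨c', f', h1.trans h6, h7, by rw [h8, h3], h9⟩

/-- doubling every letter -/
def dbl (s : List Bool) : List Bool := s.flatMap fun x => [x, x]

theorem exists_word (k : ℕ) : ∃ s : List Bool, dbl s ∈ G.language true ∧ s.count true = k + 1 := by
  obtain ⟨c, f, h1, h2, h3, h4⟩ := reach k
  refine ⟨c ++ f, ?_, ?_⟩
  · refine Or.inr ⟨![pend [true] ++ [nt NT.D], [nt NT.E]], rfl, ?_⟩
    have e1 : (cat ![pend [true] ++ [nt NT.D], [nt NT.E]] : List Sy) = st [] [true] := by
      rw [cat_two]; simp [st, dg, prs]
    have e2 : ((dbl (c ++ f)).map Symbol.terminal : List Sy) = prs (dg (c ++ f)) := by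
      simp [dbl, prs, dg, List.map_flatMap, List.flatMap_map]
    have h5 : ReflTransGen (G.Step true) (st [] [true]) (prs (dg (c ++ f))) := by
      cases f with
      | nil => simp at h4
      | cons x f => exact (h1.tail (toF c (x :: f))).trans (finish f x c)
    rw [← e1, ← e2] at h5
    exact h5
  · rw [h2, List.count_cons_self]
    have : ∀ c : List Bool, (c.flatMap phi).count true = c.count true := by
      intro c
      induction c with
      | nil => rfl
      | cons x c ih =>
        rw [List.flatMap_cons, List.count_append, ih]
        cases x <;> simp [phi, Nat.add_comm]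
    rw [this, h3]

/-! ### The regular language `(aa | bb)^*` through a finite monoid -/

abbrev St := Option (Option Bool)

/-- reading a letter (from right to left) -/
def dl (x : Bool) : St → St
  | none => none
  | some none => some (some x)
  | some (some y) => if x = y then some none else none

abbrev Mo := Function.End St

instance : Finite Mo := inferInstanceAs (Finite (St → St))

def hh (x : Bool) : Mo := dl x

def Acc : Set Mo := {g | g (some none) = some none}

def run (w : List Bool) : St := w.foldr dl (some none)

theorem prod_run (w : List Bool) : (w.map hh).prod (some none) = run w := by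
  induction w with
  | nil => rfl
  | cons x w ih =>
    rw [List.map_cons, List.prod_cons]
    show hh x ((w.map hh).prod (some none)) = dl x (run w)
    rw [ih]
    rfl

theorem run_dbl (s : List Bool) : run (dbl s) = some none := by
  induction s with
  | nil => rfl
  | cons x s ih =>
    show dl x (dl x (run (dbl s))) = _
    rw [ih]
    simp [dl]

theorem run_inv (w : List Bool) : (run w = some none → ∃ s, w = dbl s) ∧
    ∀ x, run w = some (some x) → ∃ s, w = x :: dbl s := by
  induction w with
  | nil => exact ⟨fun _ => ⟨[], rfl⟩, fun x hx => by simp [run] at hx⟩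
  | cons y w ih =>
    have e : run (y :: w) = dl y (run w) := rfl
    constructor
    · intro h
      rw [e] at h
      rcases hr : run w with _ | (_ | z)
      · rw [hr] at h; simp [dl] at h
      · rw [hr] at h; simp [dl] at h
      · rw [hr] at h
        obtain ⟨s, hs⟩ := ih.2 z hr
        by_cases hyz : y = z
        · subst hyz
          exact ⟨y :: s, by rw [hs]; rfl⟩
        · simp [dl, hyz] at h
    · intro x h
      rw [e] at h
      rcases hr : run w with _ | (_ | z)
      · rw [hr] at h; simp [dl] at h
      · rw [hr] at h
        obtain ⟨s, hs⟩ := ih.1 hr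
        have : y = x := by simpa [dl] using h
        exact ⟨s, by rw [hs, this]⟩
      · rw [hr] at h
        by_cases hyz : y = z
        · simp [dl, hyz] at h
        · simp [dl, hyz] at h

theorem pairs_eq (p : List (Bool × Bool)) : ∀ s : List Bool,
    p.flatMap (fun z => [z.1, z.2]) = dbl s → p.map Prod.fst = s ∧ p.map Prod.snd = s := by
  induction p with
  | nil =>
    intro s h
    cases s with
    | nil => exact ⟨rfl, rfl⟩
    | cons x s => simp [dbl] at h
  | cons z p ih =>
    intro s h
    cases s with
    | nil => simp [dbl] at h
    | cons x s =>
      simp only [dbl, List.flatMap_cons, List.cons_append, List.nil_append, List.cons.injEq] at h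
      obtain ⟨h1, h2, h3⟩ := h
      obtain ⟨h4, h5⟩ := ih s h3
      exact ⟨by rw [List.map_cons, h1, h4], by rw [List.map_cons, h2, h5]⟩

/-- the queue grows: quadratically many letters `a` -/
theorem growth (c : List Bool) : ∀ (f : List Bool) (x y k r : ℕ),
    List.replicate x false ++ true :: List.replicate y false ++ c.flatMap phi = c ++ f →
    x + y = k → 2 * r + k = k * k + 2 * y →
    (k + c.count true) * (k + c.count true) ≤ 2 * (r + c.count false) + (k + c.count true) := by
  induction c with
  | nil =>
    intro f x y k r _ _ h3
    simp only [List.count_nil, Nat.add_zero]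
    omega
  | cons b c ih =>
    intro f x y k r h1 h2 h3
    cases x with
    | zero =>
      cases b with
      | false => simp at h1
      | true =>
        have h4 : List.replicate (y + 1) false ++ true :: List.replicate 0 false ++
            c.flatMap phi = c ++ f := by
          have h5 : List.replicate y false ++ (phi true ++ c.flatMap phi) = c ++ f := by
            simpa using h1
          rw [← h5]
          simp [phi, List.replicate_succ']
        have h6 := ih f (y + 1) 0 (k + 1) r h4 (by omega) (by
          have : y = k := by omega
          subst this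
          ring_nf
          ring_nf at h3
          omega)
        rw [List.count_cons_self, List.count_cons_of_ne (by decide)]
        have e : k + (c.count true + 1) = k + 1 + c.count true := by ring
        rw [e]
        exact h6
    | succ x =>
      cases b with
      | true => simp [List.replicate_succ] at h1
      | false =>
        have h4 : List.replicate x false ++ true :: List.replicate (y + 1) false ++
            c.flatMap phi = c ++ f := by
          have h5 : List.replicate x false ++ true :: (List.replicate y false ++
              (phi false ++ c.flatMap phi)) = c ++ f := by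
            simpa [List.replicate_succ] using h1
          rw [← h5]
          simp [phi, List.replicate_succ']
        have h6 := ih f x (y + 1) k (r + 1) h4 (by omega) (by omega)
        rw [List.count_cons_self, List.count_cons_of_ne (by decide)]
        have e : r + (c.count false + 1) = r + 1 + c.count false := by ring
        rw [e]
        exact h6

theorem count_dbl (s : List Bool) (x : Bool) : (dbl s).count x = 2 * s.count x := by
  induction s with
  | nil => rfl
  | cons y s ih =>
    show List.count x (y :: y :: dbl s) = _
    simp only [List.count_cons, ih]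
    ring

theorem count_phi (c : List Bool) : (c.flatMap phi).count true = c.count true ∧
    (c.flatMap phi).count false = c.count false + c.count true := by
  induction c with
  | nil => exact ⟨rfl, rfl⟩
  | cons x c ih =>
    obtain ⟨ih1, ih2⟩ := ih
    rw [List.flatMap_cons, List.count_append, List.count_append, ih1, ih2]
    cases x
    · have e1 : (phi false).count true = 0 := rfl
      have e2 : (phi false).count false = 1 := rfl
      rw [e1, e2, List.count_cons_self, List.count_cons_of_ne (by decide)]
      constructor <;> omega
    · have e1 : (phi true).count true = 1 := rfl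
      have e2 : (phi true).count false = 1 := rfl
      rw [e1, e2, List.count_cons_self, List.count_cons_of_ne (by decide)]
      constructor <;> omega

/-- words of the queue grammar of the form `(aa | bb)^*` -/
theorem growth_word {w : List Bool} (hw : w ∈ G.language true) (hr : run w = some none) :
    ∃ k r, w.count true = 2 * (k + 1) ∧ w.count false = 2 * (r + k) ∧ k * k ≤ 2 * r + k := by
  obtain ⟨p, c, rfl, ⟨f, h1⟩, h2⟩ := mem_language hw
  obtain ⟨s, hs⟩ := (run_inv _).1 hr
  obtain ⟨h3, h4⟩ := pairs_eq p s hs
  rw [hs]
  rw [h4] at h1
  rw [h3] at h2
  have h5 := growth c f 0 0 0 0 (by simp; rw [h1, h2]) rfl rfl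
  refine ⟨c.count true, c.count false, ?_, ?_, ?_⟩
  · rw [count_dbl, h2, List.count_cons_self, (count_phi c).1]
  · rw [count_dbl, h2, List.count_cons_of_ne (by decide), (count_phi c).2]
  · simpa using h5

/-- **The mode 1 language of the queue grammar is not generated in mode 0.** -/
theorem main (n : ℕ) (H : Grammar n Bool) : H.language false ≠ G.language true := by
  intro heq
  choose s hs1 hs2 using exists_word
  have hinj : Function.Injective fun k => dbl (s k) := by
    intro a b hab
    have h1 : (dbl (s a)).count true = (dbl (s b)).count true := congrArg _ hab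
    rw [count_dbl, count_dbl, hs2, hs2] at h1
    omega
  obtain ⟨m, m', hm, ε, h1, h2⟩ := pump (lm := false) H hh (by simp) Acc (fun k => dbl (s k)) hinj
    (fun k => by rw [heq]; exact hs1 k) (fun k => by
      show (((dbl (s k)).map hh).prod) (some none) = some none
      rw [prod_run, run_dbl])
  have h3 := h1 true
  rw [cnt_eq, cnt_eq, count_dbl, count_dbl, hs2, hs2] at h3
  -- the line
  obtain ⟨u, hu1, hu2, hu3⟩ := h2 (cnt (dbl (s m)) false + ε false + 1)
  rw [heq] at hu1
  have hu4 : run u = some none := by rw [← prod_run]; exact hu2
  obtain ⟨k, r, h4, h5, h6⟩ := growth_word hu1 hu4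
  have h7 := hu3 true
  have h8 := hu3 false
  rw [cnt_eq, cnt_eq, count_dbl, hs2, h4] at h7
  rw [cnt_eq, h5] at h8
  generalize cnt (dbl (s m)) false = A0 at h7 h8
  have h9 : 2 ≤ ε true := by omega
  have h10 : A0 + ε false + 1 ≤ k := by
    have : (A0 + ε false + 1) * 2 ≤ (A0 + ε false + 1) * ε true := Nat.mul_le_mul_left _ h9
    omega
  have h11 : k * k ≤ A0 + (A0 + ε false + 1) * ε false := by omega
  have h12 : (A0 + ε false + 1) * (A0 + ε false + 1) ≤ k * k := Nat.mul_le_mul h10 h10
  nlinarith

end Pool.Agent.R574.EM.Queue
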