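import Pool.Agent.R574.EM.Mat

set_option autoImplicit false

/-!
Mode 0 and mode 1 have the same Parikh images; the language of the words `a^(2^k)` is recursively
enumerable and is not generated in either mode.
-/

namespace Pool.Agent.R574.EM

open Relation

variable {n : ℕ} {T : Type}

theorem exists_terminal {M : Type} {N : Type} (l : List (AS T M N))
    (hl : ∀ A, Symbol.nonterminal A ∉ l) : ∃ u : List T, l = u.map Symbol.terminal := by
  induction l with
  | nil => exact ⟨[], rfl⟩
  | cons s l ih =>
    obtain ⟨u, hu⟩ := ih fun A hA => hl A (List.mem_cons_of_mem _ hA)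
    rcases s with t | A
    · exact ⟨t :: u, by rw [hu]; rfl⟩
    · exact absurd List.mem_cons_self (hl A)

/-- every word generated in mode 0 is a permutation of a word generated in mode 1 -/
theorem exists_perm (G : Grammar n T) {w : List T} (hw : w ∈ G.language false) :
    ∃ u ∈ G.language true, u.Perm w := by
  rcases hw with h | ⟨v, hv, h⟩
  · exact ⟨w, Or.inl h, List.Perm.refl w⟩
  obtain ⟨a, h1, h2, h3⟩ := lift_derives (M := Unit) G (fun _ => 1) h (w.map Symbol.terminal)
    (by rw [List.map_map]; rfl)
  obtain ⟨X, hX1, hX2⟩ := split_cat proj v a h1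
  have hX3 : ∀ i A, Symbol.nonterminal A ∈ X i → G.comp A.1 = i := by
    intro i A hA
    refine (G.start_comp v hv i).1 A.1 ?_
    have := List.mem_map_of_mem (f := proj) hA
    rw [hX2 i] at this
    exact this
  obtain ⟨X', h6, _, h8⟩ := realise (lm := true) G (fun _ => (1 : Unit))
    (fun _ => inferInstance) h3 X hX3 (by rw [hX1])
  obtain ⟨u, hu⟩ := exists_terminal (cat X') (by
    intro A hA
    have h9 := (cnt_pos _ _).mpr hA
    rw [h6] at h9
    have h10 := (cnt_pos _ _).mp h9
    simp at h10)
  refine ⟨u, Or.inr ⟨v, hv, ?_⟩, ?_⟩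
  · have e1 : (cat X).map proj = cat v := by rw [← hX1, h1]
    have e2 : (cat X').map proj = u.map Symbol.terminal := by
      rw [hu, List.map_map]; rfl
    rw [e1, e2] at h8
    exact h8
  · classical
    rw [List.perm_iff_count]
    intro t
    rw [hu] at h6
    have := congrFun h6 (Symbol.terminal t)
    rw [cnt_map _ (fun x y hxy => by cases hxy; rfl), cnt_map _ (fun x y hxy => by cases hxy; rfl),
      cnt_eq, cnt_eq] at this
    exact this

/-- the words `a^(2^k)` -/
def Pow2 : Set (List Unit) := {w | ∃ k, w.length = 2 ^ k}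

theorem pow2_re : REPred fun w : List Unit => w ∈ Pow2 := by
  have h1 : Computable₂ fun (w : List Unit) (k : ℕ) => decide (w.length = 2 ^ k) := by
    have h2 : Primrec₂ fun (w : List Unit) (k : ℕ) => decide (w.length = 2 ^ k) := by
      have hpow : Primrec₂ fun a b : ℕ => a ^ b := Primrec₂.unpaired'.1 Nat.Primrec.pow
      have h3 : PrimrecRel fun (w : List Unit) (k : ℕ) => w.length = 2 ^ k :=
        Primrec.eq.comp₂ (Primrec.list_length.comp₂ Primrec₂.left)
          (hpow.comp₂ (Primrec₂.const 2) Primrec₂.right)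
      exact h3.decide
    exact h2.to_comp
  have h4 : Partrec fun w : List Unit => Nat.rfind fun k => (Part.some (decide (w.length = 2 ^ k))) :=
    Partrec.rfind h1.partrec₂
  have h5 := h4.dom_re
  refine h5.of_eq fun w => ?_
  rw [Nat.rfind_dom]
  simp only [Part.mem_some_iff, Part.some_dom, implies_true, and_true]
  constructor
  · rintro ⟨k, hk⟩
    exact ⟨k, by simpa using hk.symm⟩
  · rintro ⟨k, hk⟩
    exact ⟨k, by simp [hk]⟩

theorem pow2_not (G : Grammar n Unit) (lm : Bool) : G.language lm ≠ Pow2 := by
  intro heq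
  have hinj : Function.Injective fun k : ℕ => List.replicate (2 ^ k) () := by
    intro a b hab
    have h1 : (List.replicate (2 ^ a) ()).length = (List.replicate (2 ^ b) ()).length :=
      congrArg _ hab
    rw [List.length_replicate, List.length_replicate] at h1
    exact Nat.pow_right_injective le_rfl h1
  obtain ⟨m, m', hm, ε, h1, h2⟩ := pump (lm := lm) G (fun _ => (1 : Unit))
    (fun _ => inferInstance) Set.univ (fun k : ℕ => List.replicate (2 ^ k) ()) hinj
    (fun k => by rw [heq]; exact ⟨k, by simp⟩) (fun _ => trivial)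
  have h3 := h1 ()
  rw [cnt_eq, cnt_eq, List.count_replicate_self, List.count_replicate_self] at h3
  obtain ⟨u, hu1, _, hu3⟩ := h2 2
  rw [heq] at hu1
  obtain ⟨K, hK⟩ := hu1
  have h4 := hu3 ()
  rw [cnt_eq, cnt_eq, List.count_replicate_self] at h4
  have h5 : u.count () = u.length := by
    rw [List.count_eq_length]
    exact fun _ _ => rfl
  rw [h5, hK] at h4
  have h6 : 2 ^ m < 2 ^ m' := Nat.pow_lt_pow_right (by norm_num) hm
  have h7 : 2 ^ m' < 2 ^ K := by omega
  have h8 : m' < K := (Nat.pow_lt_pow_iff_right (by norm_num)).mp h7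
  have h9 : 2 ^ (m' + 1) ≤ 2 ^ K := Nat.pow_le_pow_right (by norm_num) h8
  rw [pow_succ] at h9
  have h10 : 0 < 2 ^ m := by positivity
  omega

end Pool.Agent.R574.EM
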